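import Pool.Agent.Lib.MP_a7b2aa_an.Ker

/-!
De la Vallee Poussin kernels, dyadic cells, cell averages of kernels.
-/

set_option autoImplicit false

namespace Pool.Agent.MP_a7b2aa_an

open Finset ZMod

set_option linter.unusedSectionVars false

section VP
variable {N : ℕ} [NeZero N]

/-- The de la Vallee Poussin kernel. -/
noncomputable def vp (m : ℕ) (y : ZMod N) : ℝ := 2 * Fk (2 * m) y - Fk m y

theorem vp_neg (m : ℕ) (y : ZMod N) : vp m (-y) = vp m y := by
  unfold vp; rw [Fk_neg, Fk_neg]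

theorem hat_vp_one (m : ℕ) (hm : 1 ≤ m) (k : ℤ) (h1 : k.natAbs ≤ m) (hN : k.natAbs + 2 * m ≤ N) :
    ∑ y : ZMod N, (vp m y : ℂ) * stdAddChar ((k : ZMod N) * y) = N := by
  have hm0 : (m : ℂ) ≠ 0 := by exact_mod_cast (by omega : m ≠ 0)
  have e1 := hat_Fk (N := N) (2 * m) k hN
  have e2 := hat_Fk (N := N) m k (by omega)
  have e3 : ∀ y : ZMod N, (vp m y : ℂ) * stdAddChar ((k : ZMod N) * y) =
      2 * ((Fk (2 * m) y : ℂ) * stdAddChar ((k : ZMod N) * y)) -
        (Fk m y : ℂ) * stdAddChar ((k : ZMod N) * y) := by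
    intro y; unfold vp; push_cast; ring
  simp_rw [e3]
  rw [Finset.sum_sub_distrib, ← Finset.mul_sum, e1, e2, Nat.cast_sub h1,
    Nat.cast_sub (by omega : k.natAbs ≤ 2 * m)]
  push_cast
  field_simp
  ring

theorem hat_vp_zero (m : ℕ) (hm : 1 ≤ m) (k : ℤ) (h1 : 2 * m ≤ k.natAbs)
    (hN : k.natAbs + 2 * m ≤ N) :
    ∑ y : ZMod N, (vp m y : ℂ) * stdAddChar ((k : ZMod N) * y) = 0 := by
  have e1 := hat_Fk (N := N) (2 * m) k hN
  have e2 := hat_Fk (N := N) m k (by omega)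
  have e3 : ∀ y : ZMod N, (vp m y : ℂ) * stdAddChar ((k : ZMod N) * y) =
      2 * ((Fk (2 * m) y : ℂ) * stdAddChar ((k : ZMod N) * y)) -
        (Fk m y : ℂ) * stdAddChar ((k : ZMod N) * y) := by
    intro y; unfold vp; push_cast; ring
  simp_rw [e3]
  rw [Finset.sum_sub_distrib, ← Finset.mul_sum, e1, e2, Nat.sub_eq_zero_of_le h1,
    Nat.sub_eq_zero_of_le (by omega : m ≤ k.natAbs)]
  simp

theorem sum_vp (m : ℕ) (hm : 1 ≤ m) (hN : 2 * m ≤ N) : ∑ y : ZMod N, |vp m y| ≤ 3 * N := by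
  have h : ∀ y : ZMod N, |vp m y| ≤ 2 * Fk (2 * m) y + Fk m y := by
    intro y
    have h1 := Fk_nonneg (2 * m) y
    have h2 := Fk_nonneg m y
    unfold vp
    rw [abs_le]
    constructor <;> linarith
  refine (Finset.sum_le_sum fun y _ => h y).trans ?_
  rw [Finset.sum_add_distrib, ← Finset.mul_sum, sum_Fk (2 * m) (by omega) hN,
    sum_Fk m hm (by omega)]
  linarith

theorem var_vp (m : ℕ) (hm : 1 ≤ m) (hN : 2 * m ≤ N) :
    ∑ y : ZMod N, |vp m (y + 1) - vp m y| ≤ 20 * Real.pi * m := by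
  have h : ∀ y : ZMod N, |vp m (y + 1) - vp m y| ≤
      2 * |Fk (2 * m) (y + 1) - Fk (2 * m) y| + |Fk m (y + 1) - Fk m y| := by
    intro y
    have h1 : vp m (y + 1) - vp m y =
        2 * (Fk (2 * m) (y + 1) - Fk (2 * m) y) - (Fk m (y + 1) - Fk m y) := by
      unfold vp; ring
    rw [h1]
    refine (abs_sub _ _).trans ?_
    rw [abs_mul, abs_of_pos (by norm_num : (0 : ℝ) < 2)]
  refine (Finset.sum_le_sum fun y _ => h y).trans ?_
  rw [Finset.sum_add_distrib, ← Finset.mul_sum]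
  have h1 := var_Fk (N := N) (2 * m) (by omega) hN
  have h2 := var_Fk (N := N) m hm (by omega)
  push_cast at h1
  linarith

theorem mom_vp (a : ℕ) (hN : 2 * 2 ^ a ∣ N) :
    ∑ y : ZMod N, |vp (2 ^ a) y| * zd y ≤ (N : ℝ) ^ 2 / 2 ^ a * (9 / 2 + a) := by
  have h : ∀ y : ZMod N, |vp (2 ^ a) y| * zd y ≤
      2 * (Fk (2 * 2 ^ a) y * zd y) + Fk (2 ^ a) y * zd y := by
    intro y
    have h1 := Fk_nonneg (2 * 2 ^ a) y
    have h2 := Fk_nonneg (2 ^ a) y
    have h3 : |vp (2 ^ a) y| ≤ 2 * Fk (2 * 2 ^ a) y + Fk (2 ^ a) y := by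
      unfold vp
      rw [abs_le]
      constructor <;> linarith
    have h4 : (0 : ℝ) ≤ zd y := Nat.cast_nonneg _
    nlinarith [mul_le_mul_of_nonneg_right h3 h4]
  refine (Finset.sum_le_sum fun y _ => h y).trans ?_
  rw [Finset.sum_add_distrib, ← Finset.mul_sum]
  have h1 := moment_Fk (N := N) (2 * 2 ^ a) (a + 1) (by ring) hN
  have h2 := moment_Fk (N := N) (2 ^ a) a rfl ((Dvd.intro_left 2 rfl).trans hN)
  push_cast at h1 h2
  have h3 : 2 * ((N : ℝ) ^ 2 / (2 * 2 ^ a) * (2 + (a + 1) / 2)) + (N : ℝ) ^ 2 / 2 ^ a * (2 + a / 2) =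
      (N : ℝ) ^ 2 / 2 ^ a * (9 / 2 + a) := by
    field_simp
    ring
  linarith

/-- The block kernel. -/
noncomputable def vk (s : ℕ) (y : ZMod N) : ℝ := vp (2 ^ s) y - vp (2 ^ (s - 2)) y

theorem vk_neg (s : ℕ) (y : ZMod N) : vk s (-y) = vk s y := by
  unfold vk; rw [vp_neg, vp_neg]

theorem sum_abs_vk (s : ℕ) (hN : 2 * 2 ^ s ≤ N) : ∑ y : ZMod N, |vk s y| ≤ 6 * N := by
  have h : ∀ y : ZMod N, |vk s y| ≤ |vp (2 ^ s) y| + |vp (2 ^ (s - 2)) y| := fun y => abs_sub _ _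
  have h2 : 2 ^ (s - 2) ≤ 2 ^ s := Nat.pow_le_pow_right (by norm_num) (Nat.sub_le _ _)
  refine (Finset.sum_le_sum fun y _ => h y).trans ?_
  rw [Finset.sum_add_distrib]
  have h3 := sum_vp (N := N) (2 ^ s) Nat.one_le_two_pow hN
  have h4 := sum_vp (N := N) (2 ^ (s - 2)) Nat.one_le_two_pow (by omega)
  linarith

theorem var_vk (s : ℕ) (hs : 2 ≤ s) (hN : 2 * 2 ^ s ≤ N) :
    ∑ y : ZMod N, |vk s (y + 1) - vk s y| ≤ 79 * 2 ^ s := by
  have h : ∀ y : ZMod N, |vk s (y + 1) - vk s y| ≤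
      |vp (2 ^ s) (y + 1) - vp (2 ^ s) y| + |vp (2 ^ (s - 2)) (y + 1) - vp (2 ^ (s - 2)) y| := by
    intro y
    have : vk s (y + 1) - vk s y = (vp (2 ^ s) (y + 1) - vp (2 ^ s) y) -
        (vp (2 ^ (s - 2)) (y + 1) - vp (2 ^ (s - 2)) y) := by unfold vk; ring
    rw [this]
    exact abs_sub _ _
  have h2 : 2 ^ s = 4 * 2 ^ (s - 2) := by
    rw [show s = (s - 2) + 2 by omega, pow_add]
    simp
    ring
  refine (Finset.sum_le_sum fun y _ => h y).trans ?_
  rw [Finset.sum_add_distrib]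
  have h3 := var_vp (N := N) (2 ^ s) Nat.one_le_two_pow hN
  have h4 := var_vp (N := N) (2 ^ (s - 2)) Nat.one_le_two_pow (by omega)
  have hpi : Real.pi < 3.15 := Real.pi_lt_d2
  have h5 : (2 : ℝ) ^ s = 4 * 2 ^ (s - 2) := by exact_mod_cast h2
  push_cast at h3 h4
  rw [h5] at h3 ⊢
  have h6 : (0 : ℝ) < 2 ^ (s - 2) := by positivity
  nlinarith [mul_lt_mul_of_pos_right hpi h6]

theorem mom_vk (s : ℕ) (hs : 2 ≤ s) (hN : 2 * 2 ^ s ∣ N) :
    ∑ y : ZMod N, |vk s y| * zd y ≤ 15 * (s + 1) * (N : ℝ) ^ 2 / 2 ^ s := by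
  have h : ∀ y : ZMod N, |vk s y| * zd y ≤ |vp (2 ^ s) y| * zd y + |vp (2 ^ (s - 2)) y| * zd y := by
    intro y
    rw [← add_mul]
    exact mul_le_mul_of_nonneg_right (abs_sub _ _) (Nat.cast_nonneg _)
  obtain ⟨r, rfl⟩ : ∃ r, s = r + 2 := ⟨s - 2, by omega⟩
  rw [show r + 2 - 2 = r by omega] at *
  refine (Finset.sum_le_sum fun y _ => h y).trans ?_
  rw [Finset.sum_add_distrib]
  have h3 := mom_vp (N := N) (r + 2) hN
  have h4 := mom_vp (N := N) r ((by
    rw [show 2 * 2 ^ (r + 2) = 2 * 2 ^ r * 4 by ring]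
    exact Dvd.intro _ rfl : 2 * 2 ^ r ∣ 2 * 2 ^ (r + 2)).trans hN)
  have h5 : (N : ℝ) ^ 2 / 2 ^ (r + 2) * (9 / 2 + ((r + 2 : ℕ) : ℝ)) +
      (N : ℝ) ^ 2 / 2 ^ r * (9 / 2 + r) = (N : ℝ) ^ 2 / 2 ^ (r + 2) * (49 / 2 + 5 * r) := by
    rw [pow_add]
    push_cast
    field_simp
    ring
  have h6 : 15 * (((r + 2 : ℕ) : ℝ) + 1) * (N : ℝ) ^ 2 / 2 ^ (r + 2) =
      (N : ℝ) ^ 2 / 2 ^ (r + 2) * (45 + 15 * r) := by
    push_cast
    ring
  rw [h6]
  refine (add_le_add h3 h4).trans ?_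
  rw [h5]
  refine mul_le_mul_of_nonneg_left ?_ (by positivity)
  have : (0 : ℝ) ≤ r := Nat.cast_nonneg _
  linarith

theorem mem_blk {s : ℕ} {k : ℤ} (h : k ∈ blk s) : 2 ^ s / 2 ≤ k.natAbs ∧ k.natAbs < 2 ^ s := by
  unfold blk at h
  rw [Finset.mem_filter, Finset.mem_Ioo] at h
  obtain ⟨⟨h1, h2⟩, h3⟩ := h
  have e : ((2 ^ s : ℕ) : ℤ) = (2 : ℤ) ^ s := by push_cast; ring
  rw [← e] at h1 h2 h3
  rw [Int.abs_eq_natAbs] at h3
  constructor <;> omega

theorem hat_vk (s t : ℕ) (hs : 2 ≤ s) (hs2 : 2 ∣ s) (ht2 : 2 ∣ t) (k : ℤ) (hk : k ∈ blk t)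
    (hN : 2 ^ t + 2 * 2 ^ s ≤ N) :
    ∑ y : ZMod N, (vk s y : ℂ) * stdAddChar ((k : ZMod N) * y) = if t = s then (N : ℂ) else 0 := by
  obtain ⟨h1, h2⟩ := mem_blk hk
  have e3 : ∀ y : ZMod N, (vk s y : ℂ) * stdAddChar ((k : ZMod N) * y) =
      (vp (2 ^ s) y : ℂ) * stdAddChar ((k : ZMod N) * y) -
        (vp (2 ^ (s - 2)) y : ℂ) * stdAddChar ((k : ZMod N) * y) := by
    intro y; unfold vk; push_cast; ring
  simp_rw [e3]
  rw [Finset.sum_sub_distrib]
  obtain ⟨r, rfl⟩ : ∃ r, s = r + 2 := ⟨s - 2, by omega⟩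
  rw [show r + 2 - 2 = r by omega]
  have hp : 2 ^ (r + 2) = 4 * 2 ^ r := by ring
  have hr1 : 1 ≤ 2 ^ r := Nat.one_le_two_pow
  rcases lt_trichotomy t (r + 2) with hlt | heq | hgt
  · have h3 : 2 ^ t ≤ 2 ^ r := Nat.pow_le_pow_right (by norm_num) (by omega)
    rw [if_neg hlt.ne, hat_vp_one _ Nat.one_le_two_pow k (by omega) (by omega),
      hat_vp_one _ Nat.one_le_two_pow k (by omega) (by omega), sub_self]
  · rw [heq] at h1 h2 hN
    rw [if_pos heq, hat_vp_one _ Nat.one_le_two_pow k (by omega) (by omega),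
      hat_vp_zero _ Nat.one_le_two_pow k (by omega) (by omega), sub_zero]
  · have h3 : 2 ^ (r + 4) ≤ 2 ^ t := Nat.pow_le_pow_right (by norm_num) (by omega)
    have h4 : 2 ^ (r + 4) = 16 * 2 ^ r := by ring
    rw [if_neg hgt.ne', hat_vp_zero _ Nat.one_le_two_pow k (by omega) (by omega),
      hat_vp_zero _ Nat.one_le_two_pow k (by omega) (by omega), sub_self]

theorem sum_vk (s : ℕ) (hs : 2 ≤ s) (hs2 : 2 ∣ s) (hN : 1 + 2 * 2 ^ s ≤ N) :
    ∑ y : ZMod N, vk s y = 0 := by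
  have h := hat_vk (N := N) s 0 hs hs2 (dvd_zero 2) 0 (by unfold blk; simp)
    (by rw [pow_zero]; exact hN)
  rw [if_neg (by omega)] at h
  simp only [Int.cast_zero, zero_mul, AddChar.map_zero_eq_one, mul_one] at h
  exact_mod_cast h

end VP

section Cells
variable {L l : ℕ}

/-- The cell of `x` as a finite set. -/
def cs (L l : ℕ) (x : ZMod (2 ^ L)) : Finset (ZMod (2 ^ L)) :=
  univ.filter (fun z : ZMod (2 ^ L) => cell L l z = cell L l x)

theorem mem_cs {x z : ZMod (2 ^ L)} : z ∈ cs L l x ↔ cell L l z = cell L l x := by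
  unfold cs; simp

theorem cs_eq {x y : ZMod (2 ^ L)} (h : cell L l x = cell L l y) : cs L l x = cs L l y := by
  unfold cs; rw [h]

theorem two_pow_split (hl : l ≤ L) : 2 ^ L = 2 ^ l * 2 ^ (L - l) := by
  rw [← pow_add, Nat.add_sub_cancel' hl]

theorem cell_bound (hl : l ≤ L) (x : ZMod (2 ^ L)) :
    cell L l x * 2 ^ (L - l) ≤ x.val ∧ x.val < (cell L l x + 1) * 2 ^ (L - l) ∧
      (cell L l x + 1) * 2 ^ (L - l) ≤ 2 ^ L := by
  have hp : 0 < 2 ^ (L - l) := by positivity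
  have hx : x.val < 2 ^ l * 2 ^ (L - l) := by rw [← two_pow_split hl]; exact ZMod.val_lt x
  unfold cell
  refine ⟨Nat.div_mul_le_self _ _, ?_, ?_⟩
  · have := Nat.lt_div_mul_add (a := x.val) hp
    rw [add_mul, one_mul]
    exact this
  · refine le_of_le_of_eq (Nat.mul_le_mul_right _ ?_) (two_pow_split hl).symm
    have : x.val / 2 ^ (L - l) < 2 ^ l := (Nat.div_lt_iff_lt_mul hp).2 hx
    omega

theorem cell_eq_of {c : ℕ} {x : ZMod (2 ^ L)} (h1 : c * 2 ^ (L - l) ≤ x.val)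
    (h2 : x.val < (c + 1) * 2 ^ (L - l)) : cell L l x = c :=
  Nat.div_eq_of_lt_le h1 h2

theorem card_cs (hl : l ≤ L) (x : ZMod (2 ^ L)) : (cs L l x).card = 2 ^ (L - l) := by
  rw [← card_range (2 ^ (L - l))]
  obtain ⟨_, _, b3⟩ := cell_bound hl x
  have hp : 0 < 2 ^ (L - l) := by positivity
  refine Finset.card_nbij' (fun z => z.val - cell L l x * 2 ^ (L - l))
    (fun j => ((cell L l x * 2 ^ (L - l) + j : ℕ) : ZMod (2 ^ L))) ?_ ?_ ?_ ?_
  · intro z hz
    have hz' : cell L l z = cell L l x := mem_cs.1 hz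
    obtain ⟨c1, c2, _⟩ := cell_bound hl z
    rw [hz', add_mul, one_mul] at c2
    rw [hz'] at c1
    simp only [coe_range, Set.mem_Iio]
    omega
  · intro j hj
    simp only [coe_range, Set.mem_Iio] at hj
    rw [add_mul, one_mul] at b3
    refine mem_cs.2 ?_
    have hv : (((cell L l x * 2 ^ (L - l) + j : ℕ) : ZMod (2 ^ L))).val =
        cell L l x * 2 ^ (L - l) + j := ZMod.val_natCast_of_lt (by omega)
    refine cell_eq_of ?_ ?_
    · rw [hv]; omega
    · rw [hv, add_mul, one_mul]; omega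
  · intro z hz
    have hz' : cell L l z = cell L l x := mem_cs.1 hz
    obtain ⟨c1, c2, _⟩ := cell_bound hl z
    rw [hz'] at c1
    show ((cell L l x * 2 ^ (L - l) + (z.val - cell L l x * 2 ^ (L - l)) : ℕ) : ZMod (2 ^ L)) = z
    rw [Nat.add_sub_cancel' c1, ZMod.natCast_zmod_val]
  · intro j hj
    simp only [coe_range, Set.mem_Iio] at hj
    rw [add_mul, one_mul] at b3
    show (((cell L l x * 2 ^ (L - l) + j : ℕ) : ZMod (2 ^ L))).val - cell L l x * 2 ^ (L - l) = j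
    rw [ZMod.val_natCast_of_lt (by omega)]
    omega

theorem cell_mono {l' : ℕ} (h1 : l ≤ l') (h2 : l' ≤ L) {x y : ZMod (2 ^ L)}
    (h : cell L l' x = cell L l' y) : cell L l x = cell L l y := by
  unfold cell at h ⊢
  have e : 2 ^ (L - l) = 2 ^ (L - l') * 2 ^ (l' - l) := by rw [← pow_add]; congr 1; omega
  rw [e, ← Nat.div_div_eq_div_mul, ← Nat.div_div_eq_div_mul, h]

/-- The indicator of a cell. -/
noncomputable def chi (L l c : ℕ) (z : ZMod (2 ^ L)) : ℝ := if cell L l z = c then 1 else 0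

theorem val_sub_one {w : ZMod (2 ^ L)} (hw : 1 ≤ w.val) : (w - 1).val = w.val - 1 := by
  have h1 : w - 1 = ((w.val - 1 : ℕ) : ZMod (2 ^ L)) := by
    rw [Nat.cast_sub hw, ZMod.natCast_zmod_val, Nat.cast_one]
  rw [h1]
  refine ZMod.val_natCast_of_lt ?_
  have := ZMod.val_lt w
  omega

theorem val_add_one' {z : ZMod (2 ^ L)} (hz : z.val + 1 < 2 ^ L) : (z + 1).val = z.val + 1 := by
  have h1 : z + 1 = ((z.val + 1 : ℕ) : ZMod (2 ^ L)) := by
    push_cast
    rw [ZMod.natCast_zmod_val]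
  rw [h1]
  exact ZMod.val_natCast_of_lt hz

theorem var_chi (hl : l ≤ L) (c : ℕ) :
    ∑ z : ZMod (2 ^ L), |chi L l c (z + 1) - chi L l c z| ≤ 2 := by
  set z1 : ZMod (2 ^ L) := (((c + 1) * 2 ^ (L - l) - 1 : ℕ) : ZMod (2 ^ L))
  set z2 : ZMod (2 ^ L) := ((c * 2 ^ (L - l) : ℕ) : ZMod (2 ^ L)) - 1
  have hp : 0 < 2 ^ (L - l) := by positivity
  have h : ∀ z : ZMod (2 ^ L), |chi L l c (z + 1) - chi L l c z| ≤
      (if z = z1 then 1 else 0) + (if z = z2 then 1 else 0) := by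
    intro z
    have hnn : (0 : ℝ) ≤ (if z = z1 then 1 else 0) + (if z = z2 then 1 else 0) := by
      split_ifs <;> norm_num
    unfold chi
    by_cases ha : cell L l z = c
    · by_cases hb : cell L l (z + 1) = c
      · rw [if_pos ha, if_pos hb, sub_self, abs_zero]; exact hnn
      · have hz : z = z1 := by
          obtain ⟨b1, b2, b3⟩ := cell_bound hl z
          rw [ha] at b1 b2 b3
          by_contra hne
          have h1 : z.val ≠ (c + 1) * 2 ^ (L - l) - 1 := by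
            intro h1
            refine hne ?_
            rw [← ZMod.natCast_zmod_val z, h1]
          have h2 : z.val + 1 < (c + 1) * 2 ^ (L - l) := by omega
          have h3 := val_add_one' (z := z) (by omega)
          refine hb (cell_eq_of ?_ ?_) <;> omega
        rw [if_neg hb, if_pos ha, if_pos hz]
        split_ifs <;> norm_num
    · by_cases hb : cell L l (z + 1) = c
      · have hz : z = z2 := by
          obtain ⟨b1, b2, b3⟩ := cell_bound hl (z + 1)
          rw [hb] at b1 b2 b3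
          by_contra hne
          have h1 : (z + 1).val ≠ c * 2 ^ (L - l) := by
            intro h1
            refine hne ?_
            show z = ((c * 2 ^ (L - l) : ℕ) : ZMod (2 ^ L)) - 1
            rw [← h1, ZMod.natCast_zmod_val, add_sub_cancel_right]
          have h3 := val_sub_one (w := z + 1) (by omega)
          rw [add_sub_cancel_right] at h3
          refine ha (cell_eq_of ?_ ?_) <;> omega
        rw [if_neg ha, if_pos hb, if_pos hz]
        split_ifs <;> norm_num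
      · rw [if_neg ha, if_neg hb, sub_self, abs_zero]; exact hnn
  refine (Finset.sum_le_sum fun z _ => h z).trans ?_
  rw [Finset.sum_add_distrib, Finset.sum_ite_eq', Finset.sum_ite_eq', if_pos (mem_univ _),
    if_pos (mem_univ _)]
  norm_num

theorem zd_neg {N : ℕ} [NeZero N] (c : ZMod N) : zd (-c) = zd c := by
  unfold zd
  rw [ZMod.neg_val]
  have := ZMod.val_lt c
  split_ifs with h
  · subst h; simp
  · omega

theorem zd_sub_le (hl : l ≤ L) {z z' : ZMod (2 ^ L)} (h : cell L l z = cell L l z') :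
    zd (z - z') ≤ 2 ^ (L - l) := by
  have key : ∀ z z' : ZMod (2 ^ L), cell L l z = cell L l z' → z'.val ≤ z.val →
      zd (z - z') ≤ 2 ^ (L - l) := by
    intro z z' h hle
    obtain ⟨b1, b2, _⟩ := cell_bound hl z
    obtain ⟨c1, c2, _⟩ := cell_bound hl z'
    rw [← h] at c1 c2
    rw [add_mul, one_mul] at b2 c2
    have h1 : z - z' = ((z.val - z'.val : ℕ) : ZMod (2 ^ L)) := by
      rw [Nat.cast_sub hle, ZMod.natCast_zmod_val, ZMod.natCast_zmod_val]
    have hz := ZMod.val_lt z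
    have h2 : (z - z').val = z.val - z'.val := by
      rw [h1]; exact ZMod.val_natCast_of_lt (by omega)
    unfold zd
    rw [h2]
    omega
  rcases le_total z'.val z.val with h1 | h1
  · exact key z z' h h1
  · rw [← zd_neg, neg_sub]
    exact key z' z h.symm h1

theorem osc_cell (hl : l ≤ L) (g : ZMod (2 ^ L) → ℝ) {z z' : ZMod (2 ^ L)}
    (h : cell L l z = cell L l z') : |g z - g z'| ≤ ∑ w ∈ cs L l z, |g (w + 1) - g w| := by
  have key : ∀ z z' : ZMod (2 ^ L), cell L l z = cell L l z' → z'.val ≤ z.val →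
      |g z - g z'| ≤ ∑ w ∈ cs L l z, |g (w + 1) - g w| := by
    intro z z' h hle
    obtain ⟨b1, b2, b3⟩ := cell_bound hl z
    obtain ⟨c1, c2, _⟩ := cell_bound hl z'
    rw [← h] at c1 c2
    have h1 : ∀ n : ℕ, |g (z' + n) - g z'| ≤ ∑ j ∈ range n, |g (z' + j + 1) - g (z' + j)| := by
      intro n
      induction n with
      | zero => simp
      | succ n ih =>
        rw [Finset.sum_range_succ]
        have : z' + ((n + 1 : ℕ) : ZMod (2 ^ L)) = z' + n + 1 := by push_cast; ring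
        rw [this]
        have := abs_sub_le (g (z' + n + 1)) (g (z' + n)) (g z')
        linarith
    have h2 := h1 (z.val - z'.val)
    have h3 : z' + ((z.val - z'.val : ℕ) : ZMod (2 ^ L)) = z := by
      rw [Nat.cast_sub hle, ZMod.natCast_zmod_val, ZMod.natCast_zmod_val]; ring
    rw [h3] at h2
    refine h2.trans ?_
    have hz := ZMod.val_lt z
    have hval : ∀ j < z.val - z'.val, (z' + (j : ZMod (2 ^ L))).val = z'.val + j := by
      intro j hj
      have : z' + (j : ZMod (2 ^ L)) = ((z'.val + j : ℕ) : ZMod (2 ^ L)) := by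
        push_cast
        rw [ZMod.natCast_zmod_val]
      rw [this]
      exact ZMod.val_natCast_of_lt (by omega)
    rw [← Finset.sum_image (s := range (z.val - z'.val))
      (g := fun j : ℕ => z' + (j : ZMod (2 ^ L))) (f := fun w => |g (w + 1) - g w|)]
    · refine Finset.sum_le_sum_of_subset_of_nonneg ?_ fun _ _ _ => abs_nonneg _
      intro w hw
      rw [Finset.mem_image] at hw
      obtain ⟨j, hj, rfl⟩ := hw
      rw [mem_range] at hj
      have hv := hval j hj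
      refine mem_cs.2 (cell_eq_of ?_ ?_)
      · rw [hv]; omega
      · rw [hv]; omega
    · intro i hi j hj hij
      simp only [coe_range, Set.mem_Iio] at hi hj
      have hij' := congrArg ZMod.val hij
      simp only at hij'
      rw [hval i hi, hval j hj] at hij'
      omega
  rcases le_total z'.val z.val with h1 | h1
  · exact key z z' h h1
  · rw [abs_sub_comm, cs_eq h]
    exact key z' z h.symm h1

/-- Oscillation within cells. -/
theorem osc_sum (hl : l ≤ L) (g : ZMod (2 ^ L) → ℝ) :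
    ∑ z : ZMod (2 ^ L), ∑ z' ∈ cs L l z, |g z - g z'| ≤
      (2 : ℝ) ^ (L - l) * (2 : ℝ) ^ (L - l) * ∑ w : ZMod (2 ^ L), |g (w + 1) - g w| := by
  have h1 : ∀ z : ZMod (2 ^ L), ∑ z' ∈ cs L l z, |g z - g z'| ≤
      (2 : ℝ) ^ (L - l) * ∑ w ∈ cs L l z, |g (w + 1) - g w| := by
    intro z
    have h2 := Finset.sum_le_card_nsmul (cs L l z) (fun z' => |g z - g z'|)
      (∑ w ∈ cs L l z, |g (w + 1) - g w|) (fun z' hz' => osc_cell hl g (mem_cs.1 hz').symm)
    rw [card_cs hl, nsmul_eq_mul] at h2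
    push_cast at h2
    exact h2
  refine (Finset.sum_le_sum fun z _ => h1 z).trans ?_
  rw [← Finset.mul_sum, mul_assoc]
  refine mul_le_mul_of_nonneg_left (le_of_eq ?_) (by positivity)
  unfold cs
  simp_rw [Finset.sum_filter]
  rw [Finset.sum_comm, Finset.mul_sum]
  refine Finset.sum_congr rfl fun w _ => ?_
  have h3 : ∀ z : ZMod (2 ^ L), (if cell L l w = cell L l z then |g (w + 1) - g w| else 0) =
      if z ∈ cs L l w then |g (w + 1) - g w| else 0 := by
    intro z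
    by_cases h : cell L l w = cell L l z
    · rw [if_pos h, if_pos (mem_cs.2 h.symm)]
    · rw [if_neg h, if_neg (fun h' => h (mem_cs.1 h').symm)]
  simp_rw [h3]
  rw [← Finset.sum_filter, Finset.filter_mem_eq_inter, Finset.univ_inter, Finset.sum_const,
    card_cs hl, nsmul_eq_mul]
  push_cast
  rfl

/-! ### Cell averages of kernels -/

/-- The average over the cell of `x` of the kernel `v (x - z)`. -/
noncomputable def cav (L l : ℕ) (v : ZMod (2 ^ L) → ℝ) (x z : ZMod (2 ^ L)) : ℝ :=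
  (∑ y ∈ cs L l x, v (y - z)) / 2 ^ (L - l)

theorem sum_subLeft {N : ℕ} [NeZero N] {M : Type*} [AddCommMonoid M] (g : ZMod N → M)
    (x : ZMod N) : ∑ z : ZMod N, g (x - z) = ∑ z : ZMod N, g z :=
  Equiv.sum_comp (Equiv.subLeft x) g

theorem cav_abs (hl : l ≤ L) (v : ZMod (2 ^ L) → ℝ) (x : ZMod (2 ^ L)) :
    ∑ z : ZMod (2 ^ L), |cav L l v x z| ≤ ∑ y : ZMod (2 ^ L), |v y| := by
  have hp : (0 : ℝ) < 2 ^ (L - l) := by positivity
  have h1 : ∀ z : ZMod (2 ^ L), |cav L l v x z| ≤ (∑ y ∈ cs L l x, |v (y - z)|) / 2 ^ (L - l) := by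
    intro z
    unfold cav
    rw [abs_div, abs_of_pos hp]
    gcongr
    exact Finset.abs_sum_le_sum_abs _ _
  refine (Finset.sum_le_sum fun z _ => h1 z).trans ?_
  rw [← Finset.sum_div, div_le_iff₀ hp, Finset.sum_comm]
  have h2 : ∀ y ∈ cs L l x, ∑ z : ZMod (2 ^ L), |v (y - z)| = ∑ z : ZMod (2 ^ L), |v z| :=
    fun y _ => sum_subLeft (fun z => |v z|) y
  rw [Finset.sum_congr rfl h2, Finset.sum_const, card_cs hl, nsmul_eq_mul]
  push_cast
  rw [mul_comm]

theorem cav_diff (hl : l ≤ L) (v : ZMod (2 ^ L) → ℝ) (x : ZMod (2 ^ L)) :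
    ∑ z : ZMod (2 ^ L), |cav L l v x z - v (x - z)| ≤
      2 ^ (L - l) * ∑ y : ZMod (2 ^ L), |v (y + 1) - v y| := by
  have hp : (0 : ℝ) < 2 ^ (L - l) := by positivity
  have hV : 0 ≤ ∑ y : ZMod (2 ^ L), |v (y + 1) - v y| := Finset.sum_nonneg fun _ _ => abs_nonneg _
  have h1 : ∀ z : ZMod (2 ^ L), |cav L l v x z - v (x - z)| ≤
      (∑ y ∈ cs L l x, |v (y - z) - v (x - z)|) / 2 ^ (L - l) := by
    intro z
    have e : cav L l v x z - v (x - z) =
        (∑ y ∈ cs L l x, (v (y - z) - v (x - z))) / 2 ^ (L - l) := by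
      unfold cav
      rw [Finset.sum_sub_distrib, Finset.sum_const, card_cs hl, nsmul_eq_mul]
      push_cast
      field_simp
    rw [e, abs_div, abs_of_pos hp]
    gcongr
    exact Finset.abs_sum_le_sum_abs _ _
  refine (Finset.sum_le_sum fun z _ => h1 z).trans ?_
  rw [← Finset.sum_div, div_le_iff₀ hp, Finset.sum_comm]
  have h2 : ∀ y ∈ cs L l x, ∑ z : ZMod (2 ^ L), |v (y - z) - v (x - z)| ≤
      2 ^ (L - l) * ∑ y : ZMod (2 ^ L), |v (y + 1) - v y| := by
    intro y hy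
    have e : ∑ z : ZMod (2 ^ L), |v (y - z) - v (x - z)| =
        ∑ z : ZMod (2 ^ L), |v (z + (y - x)) - v z| := by
      rw [← sum_subLeft (fun z => |v (z + (y - x)) - v z|) x]
      refine Finset.sum_congr rfl fun z _ => ?_
      rw [show x - z + (y - x) = y - z by ring]
    rw [e]
    refine (shift_zd v (y - x)).trans ?_
    refine mul_le_mul_of_nonneg_right ?_ hV
    exact_mod_cast zd_sub_le hl (mem_cs.1 hy)
  refine (Finset.sum_le_sum h2).trans ?_
  rw [Finset.sum_const, card_cs hl, nsmul_eq_mul]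
  push_cast
  rw [mul_comm]

theorem cav_small (hl : l ≤ L) (v : ZMod (2 ^ L) → ℝ) (hv : ∑ y : ZMod (2 ^ L), v y = 0)
    (x : ZMod (2 ^ L)) :
    ∑ z : ZMod (2 ^ L), |cav L l v x z| ≤
      2 / 2 ^ (L - l) * ∑ y : ZMod (2 ^ L), |v y| * zd y := by
  have hp : (0 : ℝ) < 2 ^ (L - l) := by positivity
  set χ := chi L l (cell L l x)
  have h1 : ∀ z : ZMod (2 ^ L), |cav L l v x z| ≤
      (∑ j : ZMod (2 ^ L), |χ (z + j) - χ z| * |v j|) / 2 ^ (L - l) := by
    intro z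
    have e : ∑ y ∈ cs L l x, v (y - z) = ∑ j : ZMod (2 ^ L), (χ (z + j) - χ z) * v j := by
      have e1 : ∑ y ∈ cs L l x, v (y - z) = ∑ y : ZMod (2 ^ L), χ y * v (y - z) := by
        unfold cs
        rw [Finset.sum_filter]
        refine Finset.sum_congr rfl fun y _ => ?_
        show (if cell L l y = cell L l x then v (y - z) else 0) = chi L l (cell L l x) y * v (y - z)
        unfold chi
        split_ifs <;> simp
      have e2 : ∑ y : ZMod (2 ^ L), χ y * v (y - z) = ∑ j : ZMod (2 ^ L), χ (z + j) * v j := by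
        rw [← sum_shift (fun y => χ y * v (y - z)) z]
        refine Finset.sum_congr rfl fun y _ => ?_
        rw [add_sub_cancel_right, add_comm]
      rw [e1, e2]
      simp_rw [sub_mul]
      rw [Finset.sum_sub_distrib, ← Finset.mul_sum, hv, mul_zero, sub_zero]
    unfold cav
    rw [e, abs_div, abs_of_pos hp]
    gcongr
    refine (Finset.abs_sum_le_sum_abs _ _).trans (le_of_eq ?_)
    simp_rw [abs_mul]
  refine (Finset.sum_le_sum fun z _ => h1 z).trans ?_
  rw [← Finset.sum_div, Finset.sum_comm, div_mul_eq_mul_div]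
  gcongr
  rw [Finset.mul_sum]
  refine Finset.sum_le_sum fun j _ => ?_
  rw [← Finset.sum_mul]
  have h2 := shift_zd χ j
  have h3 := var_chi hl (cell L l x)
  have h4 : (0 : ℝ) ≤ zd j := Nat.cast_nonneg _
  have h5 : (0 : ℝ) ≤ |v j| := abs_nonneg _
  have h6 : ∑ z : ZMod (2 ^ L), |χ (z + j) - χ z| ≤ zd j * 2 :=
    h2.trans (mul_le_mul_of_nonneg_left h3 h4)
  calc (∑ z : ZMod (2 ^ L), |χ (z + j) - χ z|) * |v j| ≤ (zd j * 2) * |v j| :=
        mul_le_mul_of_nonneg_right h6 h5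
    _ = 2 * (|v j| * zd j) := by ring

/-- The localised kernel. -/
noncomputable def Kk (L s w : ℕ) (x z : ZMod (2 ^ L)) : ℝ :=
  cav L (s + w) (vk s) x z - cav L (s - w) (vk s) x z

theorem Kk_abs {s w : ℕ} (hL : s + w + 1 ≤ L) (x : ZMod (2 ^ L)) :
    ∑ z : ZMod (2 ^ L), |Kk L s w x z| ≤ 12 * 2 ^ L := by
  have hN : 2 * 2 ^ s ≤ 2 ^ L := by
    rw [← pow_succ']; exact Nat.pow_le_pow_right (by norm_num) (by omega)
  have h1 := cav_abs (by omega : s + w ≤ L) (vk s) x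
  have h2 := cav_abs (by omega : s - w ≤ L) (vk s) x
  have h3 := sum_abs_vk (N := 2 ^ L) s hN
  push_cast at h3
  have h : ∀ z : ZMod (2 ^ L), |Kk L s w x z| ≤
      |cav L (s + w) (vk s) x z| + |cav L (s - w) (vk s) x z| := fun z => abs_sub _ _
  refine (Finset.sum_le_sum fun z _ => h z).trans ?_
  rw [Finset.sum_add_distrib]
  linarith

theorem Kk_diff {s w : ℕ} (hs : 2 ≤ s) (hs2 : 2 ∣ s) (hw : w ≤ s) (hL : s + w + 2 ≤ L)
    (x : ZMod (2 ^ L)) :
    ∑ z : ZMod (2 ^ L), |Kk L s w x z - vk s (x - z)| ≤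
      (109 * (s + 1) / 2 ^ w) * 2 ^ L := by
  have hN : 2 * 2 ^ s ≤ 2 ^ L := by
    rw [← pow_succ']; exact Nat.pow_le_pow_right (by norm_num) (by omega)
  have hN2 : 2 * 2 ^ s ∣ 2 ^ L := by
    rw [← pow_succ']; exact pow_dvd_pow 2 (by omega)
  have hN3 : 1 + 2 * 2 ^ s ≤ 2 ^ L := by
    have h1 : 2 ^ (s + 2) ≤ 2 ^ L := Nat.pow_le_pow_right (by norm_num) (by omega)
    have h2 : 2 ^ (s + 2) = 4 * 2 ^ s := by ring
    have h3 : 1 ≤ 2 ^ s := Nat.one_le_two_pow
    omega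
  have h1 := cav_diff (by omega : s + w ≤ L) (vk s) x
  have h2 := cav_small (by omega : s - w ≤ L) (vk s) (sum_vk (N := 2 ^ L) s hs hs2 hN3) x
  have h3 := var_vk (N := 2 ^ L) s hs hN
  have h4 := mom_vk (N := 2 ^ L) s hs hN2
  have h : ∀ z : ZMod (2 ^ L), |Kk L s w x z - vk s (x - z)| ≤
      |cav L (s + w) (vk s) x z - vk s (x - z)| + |cav L (s - w) (vk s) x z| := by
    intro z
    have : Kk L s w x z - vk s (x - z) =
        (cav L (s + w) (vk s) x z - vk s (x - z)) - cav L (s - w) (vk s) x z := by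
      unfold Kk; ring
    rw [this]
    exact abs_sub _ _
  refine (Finset.sum_le_sum fun z _ => h z).trans ?_
  rw [Finset.sum_add_distrib]
  have h5 : (2 : ℝ) ^ (L - (s + w)) * (79 * 2 ^ s) = 79 / 2 ^ w * 2 ^ L := by
    have : (2 : ℝ) ^ L = 2 ^ (L - (s + w)) * 2 ^ s * 2 ^ w := by
      rw [← pow_add, ← pow_add]; congr 1; omega
    rw [this]
    field_simp
  have h6 : (2 : ℝ) / 2 ^ (L - (s - w)) * (15 * (s + 1) * ((2 ^ L : ℕ) : ℝ) ^ 2 / 2 ^ s) =
      30 * (s + 1) / 2 ^ w * 2 ^ L := by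
    have : (2 : ℝ) ^ L * 2 ^ w = 2 ^ (L - (s - w)) * 2 ^ s := by
      rw [← pow_add, ← pow_add]; congr 1; omega
    push_cast
    have e1 : (2 : ℝ) / 2 ^ (L - (s - w)) * (15 * (s + 1) * (2 ^ L) ^ 2 / 2 ^ s) =
        30 * (s + 1) * (2 ^ L) ^ 2 / (2 ^ (L - (s - w)) * 2 ^ s) := by
      field_simp
      ring
    rw [e1, ← this]
    field_simp
  have h7 : (2 : ℝ) ^ (L - (s + w)) * ∑ y : ZMod (2 ^ L), |vk s (y + 1) - vk s y| ≤
      79 / 2 ^ w * 2 ^ L := by
    rw [← h5]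
    exact mul_le_mul_of_nonneg_left h3 (by positivity)
  have h8 : (2 : ℝ) / 2 ^ (L - (s - w)) * ∑ y : ZMod (2 ^ L), |vk s y| * zd y ≤
      30 * (s + 1) / 2 ^ w * 2 ^ L := by
    rw [← h6]
    exact mul_le_mul_of_nonneg_left h4 (by positivity)
  have h9 : (79 : ℝ) / 2 ^ w * 2 ^ L + 30 * (s + 1) / 2 ^ w * 2 ^ L ≤
      109 * (s + 1) / 2 ^ w * 2 ^ L := by
    rw [← add_mul, ← add_div]
    gcongr
    have : (0 : ℝ) ≤ s := Nat.cast_nonneg _
    linarith
  linarith

theorem Kk_const {s w : ℕ} (hL : s + w ≤ L) {x y : ZMod (2 ^ L)}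
    (h : cell L (s + w) x = cell L (s + w) y) (z : ZMod (2 ^ L)) : Kk L s w x z = Kk L s w y z := by
  have h' : cell L (s - w) x = cell L (s - w) y := cell_mono (by omega) hL h
  unfold Kk cav
  rw [cs_eq h, cs_eq h']

theorem Kk_zero {s w : ℕ} (hL : s + w ≤ L) (x z : ZMod (2 ^ L)) :
    ∑ y ∈ cs L (s - w) x, Kk L s w y z = 0 := by
  have hp1 : (0 : ℝ) < 2 ^ (L - (s + w)) := by positivity
  have hp2 : (0 : ℝ) < 2 ^ (L - (s - w)) := by positivity
  unfold Kk
  rw [Finset.sum_sub_distrib]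
  have e2 : ∑ y ∈ cs L (s - w) x, cav L (s - w) (vk s) y z = ∑ y ∈ cs L (s - w) x, vk s (y - z) := by
    have : ∀ y ∈ cs L (s - w) x, cav L (s - w) (vk s) y z = cav L (s - w) (vk s) x z := by
      intro y hy
      unfold cav
      rw [cs_eq (mem_cs.1 hy)]
    rw [Finset.sum_congr rfl this, Finset.sum_const, card_cs (by omega), nsmul_eq_mul]
    unfold cav
    push_cast
    field_simp
  have e1 : ∑ y ∈ cs L (s - w) x, cav L (s + w) (vk s) y z = ∑ y ∈ cs L (s - w) x, vk s (y - z) := by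
    unfold cav
    rw [← Finset.sum_div, div_eq_iff hp1.ne']
    have h1 : ∑ y ∈ cs L (s - w) x, ∑ y' ∈ cs L (s + w) y, vk s (y' - z) =
        ∑ y' ∈ cs L (s - w) x, ∑ y ∈ cs L (s + w) y', vk s (y' - z) := by
      refine Finset.sum_comm' ?_
      intro y y'
      constructor
      · rintro ⟨h1, h2⟩
        have h3 := mem_cs.1 h2
        refine ⟨mem_cs.2 h3.symm, mem_cs.2 ?_⟩
        exact (cell_mono (by omega) hL h3).trans (mem_cs.1 h1)
      · rintro ⟨h1, h2⟩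
        have h3 := mem_cs.1 h1
        refine ⟨mem_cs.2 ?_, mem_cs.2 h3.symm⟩
        exact (cell_mono (by omega) hL h3).trans (mem_cs.1 h2)
    rw [h1, Finset.sum_mul]
    refine Finset.sum_congr rfl fun y' _ => ?_
    rw [Finset.sum_const, card_cs (by omega), nsmul_eq_mul]
    push_cast
    rw [mul_comm]
  rw [e1, e2, sub_self]

end Cells

end Pool.Agent.MP_a7b2aa_an
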