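import Mathlib

/-!
Definitions for the trigonometric small ball project (MP_a7b2aa_an): dyadic cells of the
cyclic group `ZMod (2 ^ L)`, frequency blocks, block polynomials and grid points.
-/

set_option autoImplicit false

namespace Pool.Agent.MP_a7b2aa_an

/-- The level-`l` dyadic cell (a natural number below `2 ^ l` when `l ≤ L`) of a point of the
cyclic group `ZMod (2 ^ L)`. -/
def cell (L l : ℕ) (x : ZMod (2 ^ L)) : ℕ := x.val / 2 ^ (L - l)

/-- The one-dimensional frequency block `{t : ⌊2^(s-1)⌋ ≤ |t| < 2^s}`. -/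
noncomputable def blk (s : ℕ) : Finset ℤ :=
  (Finset.Ioo (-(2:ℤ) ^ s) ((2:ℤ) ^ s)).filter (fun t : ℤ => (2:ℤ) ^ s / 2 ≤ |t|)

/-- The block polynomial with coefficients `c` and block `s`. -/
noncomputable def blockPoly {d : ℕ} (c : (Fin d → ℤ) → ℂ) (s : Fin d → ℕ) (x : Fin d → ℝ) : ℂ :=
  ∑ k ∈ Fintype.piFinset (fun j => blk (s j)),
    c k * Complex.exp (Complex.I * ∑ j : Fin d, ((((k j : ℝ) * x j : ℝ)) : ℂ))

/-- The point of `[0, 2π)^d` given by a point of the grid `(ZMod (2 ^ L))^d`. -/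
noncomputable def gp (L : ℕ) {d : ℕ} (x : Fin d → ZMod (2 ^ L)) : Fin d → ℝ :=
  fun j => 2 * Real.pi * ((x j).val : ℝ) / 2 ^ L

end Pool.Agent.MP_a7b2aa_an
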