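import Pool.Agent.Lib.MP_a7b2aa_an.Defs

/-!
Fejer kernels on the cyclic group: multipliers, norm, variation, first moment.
-/

set_option autoImplicit false

namespace Pool.Agent.MP_a7b2aa_an

open Finset ZMod

set_option linter.unusedSectionVars false

section Ker
variable {N : ℕ} [NeZero N]

theorem sum_psi (t : ZMod N) :
    ∑ y : ZMod N, (stdAddChar (t * y) : ℂ) = if t = 0 then (N : ℂ) else 0 := by
  split_ifs with h
  · simp [h]
  · exact AddChar.sum_eq_zero_of_ne_one (isPrimitive_stdAddChar N h)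

theorem norm_psi (t : ZMod N) : ‖(stdAddChar t : ℂ)‖ = 1 := by
  rw [stdAddChar_apply]; exact Circle.norm_coe _

theorem conj_psi (t : ZMod N) : (starRingEnd ℂ) (stdAddChar t : ℂ) = stdAddChar (-t) := by
  rw [AddChar.map_neg_eq_inv, Complex.inv_def, Complex.normSq_eq_norm_sq, norm_psi]
  simp

theorem natCast_inj_of_lt {a b : ℕ} (ha : a < N) (hb : b < N) (h : (a : ZMod N) = b) : a = b := by
  have := congrArg ZMod.val h
  rwa [ZMod.val_natCast_of_lt ha, ZMod.val_natCast_of_lt hb] at this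

/-- Parseval. -/
theorem parseval (m : ℕ) (hm : m ≤ N) (c : ℕ → ℂ) :
    ∑ y : ZMod N, ‖∑ a ∈ range m, c a * stdAddChar ((a : ZMod N) * y)‖ ^ 2 =
      N * ∑ a ∈ range m, ‖c a‖ ^ 2 := by
  have key : (∑ y : ZMod N, ((‖∑ a ∈ range m, c a * stdAddChar ((a : ZMod N) * y)‖ ^ 2 : ℝ) : ℂ)) =
      N * ∑ a ∈ range m, ((‖c a‖ ^ 2 : ℝ) : ℂ) := by
    have h1 : ∀ y : ZMod N, ((‖∑ a ∈ range m, c a * stdAddChar ((a : ZMod N) * y)‖ ^ 2 : ℝ) : ℂ) =
        ∑ a ∈ range m, ∑ b ∈ range m, (starRingEnd ℂ) (c a) * c b *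
          stdAddChar (((b : ZMod N) - (a : ZMod N)) * y) := by
      intro y
      rw [Complex.ofReal_pow, ← Complex.conj_mul', map_sum, Finset.sum_mul_sum]
      refine Finset.sum_congr rfl fun a _ => Finset.sum_congr rfl fun b _ => ?_
      rw [map_mul, conj_psi, sub_mul, sub_eq_add_neg, AddChar.map_add_eq_mul]
      ring
    simp_rw [h1]
    rw [Finset.sum_comm, Finset.mul_sum]
    refine Finset.sum_congr rfl fun a ha => ?_
    rw [Finset.sum_comm]
    have h2 : ∀ b ∈ range m, ∑ y : ZMod N, (starRingEnd ℂ) (c a) * c b *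
        (stdAddChar (((b : ZMod N) - (a : ZMod N)) * y) : ℂ) = if b = a then N * ((‖c a‖ ^ 2 : ℝ) : ℂ)
          else 0 := by
      intro b hb
      rw [← Finset.mul_sum, sum_psi]
      split_ifs with h3 h4 h4
      · subst h4
        rw [Complex.conj_mul']
        push_cast
        ring
      · exact absurd (natCast_inj_of_lt ((mem_range.1 hb).trans_le hm)
          ((mem_range.1 ha).trans_le hm) (sub_eq_zero.1 h3)) h4
      · exact absurd (by rw [h4, sub_self]) h3
      · rw [mul_zero]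
    rw [Finset.sum_congr rfl h2, Finset.sum_ite_eq', if_pos ha]
  exact_mod_cast key

/-- The Dirichlet sum. -/
noncomputable def Dk (m : ℕ) (y : ZMod N) : ℂ := ∑ a ∈ range m, stdAddChar ((a : ZMod N) * y)

/-- The Fejer kernel. -/
noncomputable def Fk (m : ℕ) (y : ZMod N) : ℝ := ‖Dk m y‖ ^ 2 / m

theorem Fk_nonneg (m : ℕ) (y : ZMod N) : 0 ≤ Fk m y := by unfold Fk; positivity

theorem Dk_neg (m : ℕ) (y : ZMod N) : Dk m (-y) = (starRingEnd ℂ) (Dk m y) := by
  unfold Dk
  rw [map_sum]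
  refine Finset.sum_congr rfl fun a _ => ?_
  rw [conj_psi, mul_neg]

theorem Fk_neg (m : ℕ) (y : ZMod N) : Fk m (-y) = Fk m y := by
  unfold Fk
  rw [Dk_neg, RCLike.norm_conj]

theorem sum_Dk (m : ℕ) (hm : m ≤ N) : ∑ y : ZMod N, ‖Dk m y‖ ^ 2 = N * m := by
  have h := parseval m hm (fun _ => 1)
  simp only [one_mul, norm_one, one_pow, sum_const, card_range, nsmul_eq_mul, mul_one] at h
  exact h

theorem sum_Fk (m : ℕ) (h1 : 1 ≤ m) (hm : m ≤ N) : ∑ y : ZMod N, Fk m y = N := by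
  unfold Fk
  rw [← Finset.sum_div, sum_Dk m hm, mul_div_assoc, div_self, mul_one]
  exact_mod_cast (by omega : m ≠ 0)

theorem Fk_eq (m : ℕ) (y : ZMod N) : (Fk m y : ℂ) =
    (∑ p ∈ range m ×ˢ range m, stdAddChar (((p.2 : ZMod N) - (p.1 : ZMod N)) * y)) / m := by
  unfold Fk Dk
  rw [Complex.ofReal_div, Complex.ofReal_pow, ← Complex.conj_mul', map_sum, Finset.sum_mul_sum,
    Complex.ofReal_natCast, Finset.sum_product]
  congr 1
  refine Finset.sum_congr rfl fun a _ => Finset.sum_congr rfl fun b _ => ?_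
  rw [conj_psi, sub_mul, sub_eq_add_neg, AddChar.map_add_eq_mul]
  ring

theorem card_pairs (m : ℕ) (k : ℤ) :
    ((range m ×ˢ range m).filter (fun p : ℕ × ℕ => (p.2 : ℤ) - p.1 + k = 0)).card =
      m - k.natAbs := by
  rw [← card_range (m - k.natAbs)]
  symm
  refine Finset.card_nbij' (fun j => (j + k.toNat, j + (-k).toNat)) (fun p => min p.1 p.2)
    ?_ ?_ ?_ ?_
  · intro j hj
    simp only [coe_range, Set.mem_Iio, coe_filter, mem_product, mem_range, Set.mem_ofPred_eq] at hj ⊢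
    omega
  · intro p hp
    simp only [coe_range, Set.mem_Iio, coe_filter, mem_product, mem_range, Set.mem_ofPred_eq] at hp ⊢
    omega
  · intro j hj
    simp only
    omega
  · intro p hp
    simp only [coe_filter, mem_product, mem_range, Set.mem_ofPred_eq] at hp
    ext <;> simp only <;> omega

/-- The multiplier of the Fejer kernel. -/
theorem hat_Fk (m : ℕ) (k : ℤ) (hk : k.natAbs + m ≤ N) :
    ∑ y : ZMod N, (Fk m y : ℂ) * stdAddChar ((k : ZMod N) * y) =
      N * (((m - k.natAbs : ℕ) : ℂ) / m) := by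
  simp_rw [Fk_eq, div_mul_eq_mul_div, Finset.sum_mul, ← Finset.sum_div]
  rw [← mul_div_assoc]
  congr 1
  rw [Finset.sum_comm, ← card_pairs m k, Finset.card_eq_sum_ones, Finset.sum_filter]
  push_cast
  rw [Finset.mul_sum]
  refine Finset.sum_congr rfl fun p hp => ?_
  rw [mem_product, mem_range, mem_range] at hp
  have h1 : ∀ y : ZMod N, (stdAddChar (((p.2 : ZMod N) - (p.1 : ZMod N)) * y) : ℂ) *
      stdAddChar ((k : ZMod N) * y) =
      stdAddChar ((((p.2 : ℤ) - (p.1 : ℤ) + k : ℤ) : ZMod N) * y) := by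
    intro y
    rw [← AddChar.map_add_eq_mul, ← add_mul]
    push_cast
    rfl
  simp_rw [h1, sum_psi]
  have h2 : ((((p.2 : ℤ) - (p.1 : ℤ) + k : ℤ) : ZMod N) = 0) ↔ (p.2 : ℤ) - (p.1 : ℤ) + k = 0 := by
    rw [ZMod.intCast_zmod_eq_zero_iff_dvd]
    constructor
    · intro h
      refine Int.eq_zero_of_abs_lt_dvd h ?_
      rw [abs_lt]
      omega
    · intro h
      rw [h]
      exact dvd_zero _
  by_cases h : (p.2 : ℤ) - (p.1 : ℤ) + k = 0
  · rw [if_pos (h2.2 h), if_pos h, mul_one]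
  · rw [if_neg (fun hh => h (h2.1 hh)), if_neg h, mul_zero]

/-! ### Variation -/

theorem psi_natCast (a : ℕ) : (stdAddChar (a : ZMod N) : ℂ) =
    Complex.exp (Complex.I * ((2 * Real.pi * a / N : ℝ) : ℂ)) := by
  have h := stdAddChar_coe (N := N) (a : ℤ)
  rw [Int.cast_natCast] at h
  rw [h]
  congr 1
  push_cast
  ring

theorem psi_sub_one_le (a : ℕ) : ‖(stdAddChar (a : ZMod N) : ℂ) - 1‖ ≤ 2 * Real.pi * a / N := by
  rw [psi_natCast]
  refine Real.norm_exp_I_mul_ofReal_sub_one_le.trans ?_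
  rw [Real.norm_eq_abs, abs_of_nonneg]
  positivity

theorem sum_Dk_diff (m : ℕ) (hm : m ≤ N) :
    ∑ y : ZMod N, ‖Dk m (y + 1) - Dk m y‖ ^ 2 ≤ N * m * (2 * Real.pi * m / N) ^ 2 := by
  have h := parseval m hm (fun a => (stdAddChar (a : ZMod N) : ℂ) - 1)
  have h1 : ∀ y : ZMod N, Dk m (y + 1) - Dk m y =
      ∑ a ∈ range m, ((stdAddChar (a : ZMod N) : ℂ) - 1) * stdAddChar ((a : ZMod N) * y) := by
    intro y
    unfold Dk
    rw [← Finset.sum_sub_distrib]
    refine Finset.sum_congr rfl fun a _ => ?_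
    rw [mul_add, mul_one, AddChar.map_add_eq_mul]
    ring
  simp_rw [h1]
  rw [h, mul_assoc]
  refine mul_le_mul_of_nonneg_left ?_ (Nat.cast_nonneg _)
  calc ∑ a ∈ range m, ‖(stdAddChar (a : ZMod N) : ℂ) - 1‖ ^ 2
      ≤ ∑ a ∈ range m, (2 * Real.pi * m / N) ^ 2 := by
        refine Finset.sum_le_sum fun a ha => ?_
        refine pow_le_pow_left₀ (norm_nonneg _) ((psi_sub_one_le a).trans ?_) 2
        have : (a : ℝ) ≤ m := by exact_mod_cast (mem_range.1 ha).le
        gcongr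
    _ = m * (2 * Real.pi * m / N) ^ 2 := by
        rw [Finset.sum_const, card_range, nsmul_eq_mul]

theorem sum_shift {M : Type*} [AddCommMonoid M] (g : ZMod N → M) (c : ZMod N) :
    ∑ y : ZMod N, g (y + c) = ∑ y : ZMod N, g y :=
  Equiv.sum_comp (Equiv.addRight c) g

theorem var_Fk (m : ℕ) (h1 : 1 ≤ m) (hm : m ≤ N) :
    ∑ y : ZMod N, |Fk m (y + 1) - Fk m y| ≤ 4 * Real.pi * m := by
  have hm0 : (0 : ℝ) < m := by exact_mod_cast h1
  have hN0 : (0 : ℝ) < N := by exact_mod_cast (NeZero.pos N)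
  set lam : ℝ := 2 * Real.pi * m / N with hlam
  have hl0 : 0 < lam := by positivity
  have hpt : ∀ y : ZMod N, |Fk m (y + 1) - Fk m y| ≤
      (1 / m) * (lam / 2 * ‖Dk m (y + 1)‖ ^ 2 + lam / 2 * ‖Dk m y‖ ^ 2 +
        1 / lam * ‖Dk m (y + 1) - Dk m y‖ ^ 2) := by
    intro y
    set A := ‖Dk m (y + 1)‖
    set B := ‖Dk m y‖
    set D := ‖Dk m (y + 1) - Dk m y‖
    have hA : 0 ≤ A := norm_nonneg _
    have hB : 0 ≤ B := norm_nonneg _
    have hD : 0 ≤ D := norm_nonneg _
    have h2 : |A - B| ≤ D := abs_norm_sub_norm_le _ _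
    have h3 : |Fk m (y + 1) - Fk m y| = (1 / m) * (|A - B| * (A + B)) := by
      have : Fk m (y + 1) - Fk m y = (1 / m) * ((A - B) * (A + B)) := by
        unfold Fk
        ring
      rw [this, abs_mul, abs_mul, abs_of_nonneg (by positivity : (0 : ℝ) ≤ 1 / m),
        abs_of_nonneg (add_nonneg hA hB)]
    rw [h3]
    refine mul_le_mul_of_nonneg_left ?_ (by positivity)
    have h4 : |A - B| * (A + B) ≤ D * (A + B) := mul_le_mul_of_nonneg_right h2 (by positivity)
    refine h4.trans ?_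
    have h5 : D * A ≤ lam / 2 * A ^ 2 + 1 / (2 * lam) * D ^ 2 := by
      have : 0 ≤ (lam * A - D) ^ 2 / (2 * lam) := by positivity
      have h6 : (lam * A - D) ^ 2 / (2 * lam) = lam / 2 * A ^ 2 - D * A + 1 / (2 * lam) * D ^ 2 := by
        field_simp
        ring
      linarith
    have h5' : D * B ≤ lam / 2 * B ^ 2 + 1 / (2 * lam) * D ^ 2 := by
      have : 0 ≤ (lam * B - D) ^ 2 / (2 * lam) := by positivity
      have h6 : (lam * B - D) ^ 2 / (2 * lam) = lam / 2 * B ^ 2 - D * B + 1 / (2 * lam) * D ^ 2 := by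
        field_simp
        ring
      linarith
    have h7 : 1 / lam * D ^ 2 = 1 / (2 * lam) * D ^ 2 + 1 / (2 * lam) * D ^ 2 := by
      field_simp
      ring
    rw [h7]
    linarith
  refine (Finset.sum_le_sum fun y _ => hpt y).trans ?_
  rw [← Finset.mul_sum, Finset.sum_add_distrib, Finset.sum_add_distrib, ← Finset.mul_sum,
    ← Finset.mul_sum, ← Finset.mul_sum, sum_shift (fun y : ZMod N => ‖Dk m y‖ ^ 2), sum_Dk m hm]
  have h8 : 1 / lam * ∑ y : ZMod N, ‖Dk m (y + 1) - Dk m y‖ ^ 2 ≤ 1 / lam * (N * m * lam ^ 2) :=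
    mul_le_mul_of_nonneg_left (sum_Dk_diff m hm) (by positivity)
  have h9 : 1 / lam * (N * m * lam ^ 2) = lam * (N * m) := by
    field_simp
  have h10 : (1 / m) * (lam / 2 * (N * m) + lam / 2 * (N * m) + lam * (N * m)) =
      4 * Real.pi * m := by
    rw [hlam]
    field_simp
    ring
  rw [← h10]
  refine mul_le_mul_of_nonneg_left ?_ (by positivity)
  linarith

/-- Variation of translates. -/
theorem shift_nat (g : ZMod N → ℝ) (n : ℕ) :
    ∑ z : ZMod N, |g (z + n) - g z| ≤ n * ∑ z : ZMod N, |g (z + 1) - g z| := by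
  induction n with
  | zero => simp
  | succ n ih =>
    have h1 : ∀ z : ZMod N, |g (z + ((n + 1 : ℕ) : ZMod N)) - g z| ≤
        |g ((z + n) + 1) - g (z + n)| + |g (z + n) - g z| := by
      intro z
      have : z + ((n + 1 : ℕ) : ZMod N) = z + n + 1 := by push_cast; ring
      rw [this]
      exact abs_sub_le _ _ _
    refine (Finset.sum_le_sum fun z _ => h1 z).trans ?_
    rw [Finset.sum_add_distrib, sum_shift (fun z : ZMod N => |g (z + 1) - g z|)]
    push_cast
    linarith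

/-- Distance to zero. -/
def zd (y : ZMod N) : ℕ := min y.val (N - y.val)

theorem shift_zd (g : ZMod N → ℝ) (c : ZMod N) :
    ∑ z : ZMod N, |g (z + c) - g z| ≤ zd c * ∑ z : ZMod N, |g (z + 1) - g z| := by
  have hV : 0 ≤ ∑ z : ZMod N, |g (z + 1) - g z| := Finset.sum_nonneg fun _ _ => abs_nonneg _
  have h1 : ∑ z : ZMod N, |g (z + c) - g z| ≤ c.val * ∑ z : ZMod N, |g (z + 1) - g z| := by
    have := shift_nat g c.val
    rwa [ZMod.natCast_zmod_val] at this
  have h2 : ∑ z : ZMod N, |g (z + c) - g z| ≤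
      ((N - c.val : ℕ) : ℝ) * ∑ z : ZMod N, |g (z + 1) - g z| := by
    have h3 := shift_nat g (N - c.val)
    have h4 : ((N - c.val : ℕ) : ZMod N) = -c := by
      rw [Nat.cast_sub (ZMod.val_lt c).le, ZMod.natCast_self, ZMod.natCast_zmod_val, zero_sub]
    rw [h4] at h3
    rw [← sum_shift (fun z : ZMod N => |g (z + -c) - g z|) c] at h3
    simp only [add_neg_cancel_right] at h3
    simp_rw [abs_sub_comm (g _) (g (_ + c))] at h3
    exact h3
  unfold zd
  rcases le_total c.val (N - c.val) with h | h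
  · rw [min_eq_left h]; exact h1
  · rw [min_eq_right h]; exact h2

/-! ### First moment -/

theorem zd_pos {y : ZMod N} (hy : y ≠ 0) : 1 ≤ zd y := by
  unfold zd
  have h1 : y.val ≠ 0 := fun h => hy ((ZMod.val_eq_zero y).1 h)
  have h2 := ZMod.val_lt y
  omega

theorem psi_sub_one_ge (y : ZMod N) : 4 * (zd y : ℝ) / N ≤ ‖(stdAddChar y : ℂ) - 1‖ := by
  have hN0 : (0 : ℝ) < N := by exact_mod_cast (NeZero.pos N)
  have hpi := Real.pi_pos
  have h := psi_natCast (N := N) y.val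
  rw [ZMod.natCast_zmod_val] at h
  rw [h, Complex.norm_exp_I_mul_ofReal_sub_one, norm_mul, Real.norm_eq_abs, Real.norm_eq_abs,
    abs_of_pos (by norm_num : (0 : ℝ) < 2)]
  have hv := ZMod.val_lt y
  have hvN : (y.val : ℝ) ≤ N := by exact_mod_cast hv.le
  have hsin : 2 * (zd y : ℝ) / N ≤ Real.sin (2 * Real.pi * y.val / N / 2) := by
    rcases le_total (2 * y.val) N with h2 | h2
    · have hz : zd y = y.val := by unfold zd; omega
      have h2' : 2 * (y.val : ℝ) ≤ N := by exact_mod_cast h2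
      rw [hz]
      have h3 := Real.mul_le_sin (x := 2 * Real.pi * y.val / N / 2) (by positivity) (by
        rw [div_div, div_le_div_iff₀ (by positivity) (by norm_num)]
        nlinarith)
      refine le_trans (le_of_eq ?_) h3
      field_simp
    · have hz : zd y = N - y.val := by unfold zd; omega
      have h2' : (N : ℝ) ≤ 2 * y.val := by exact_mod_cast h2
      rw [hz, Nat.cast_sub hv.le, ← Real.sin_pi_sub]
      have h3 := Real.mul_le_sin (x := Real.pi - 2 * Real.pi * y.val / N / 2) (by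
        rw [sub_nonneg, div_div, div_le_iff₀ (by positivity)]
        nlinarith) (by
        rw [sub_le_iff_le_add, ← sub_le_iff_le_add', div_div, le_div_iff₀ (by positivity)]
        nlinarith)
      refine le_trans (le_of_eq ?_) h3
      field_simp
  have h0 : 0 ≤ 2 * (zd y : ℝ) / N := by positivity
  have habs : Real.sin (2 * Real.pi * y.val / N / 2) ≤ |Real.sin (2 * Real.pi * y.val / N / 2)| :=
    le_abs_self _
  have h4 : 4 * (zd y : ℝ) / N = 2 * (2 * (zd y : ℝ) / N) := by ring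
  rw [h4]
  linarith

theorem norm_Dk_le (m : ℕ) (y : ZMod N) : ‖Dk m y‖ ≤ m := by
  unfold Dk
  refine (norm_sum_le _ _).trans ?_
  simp only [norm_psi, sum_const, card_range, nsmul_eq_mul, mul_one, le_refl]

theorem Fk_le (m : ℕ) (y : ZMod N) : Fk m y ≤ m := by
  unfold Fk
  rcases Nat.eq_zero_or_pos m with h | h
  · subst h; simp
  · have hm : (0 : ℝ) < m := by exact_mod_cast h
    rw [div_le_iff₀ hm]
    have h1 := norm_Dk_le m y
    have h2 := norm_nonneg (Dk m y)
    nlinarith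

theorem Dk_decay (m : ℕ) (y : ZMod N) : ‖Dk m y‖ * (4 * (zd y : ℝ) / N) ≤ 2 := by
  have h1 : Dk m y * ((stdAddChar y : ℂ) - 1) = (stdAddChar y : ℂ) ^ m - 1 := by
    rw [← geom_sum_mul]
    congr 1
    unfold Dk
    refine Finset.sum_congr rfl fun a _ => ?_
    rw [← nsmul_eq_mul, AddChar.map_nsmul_eq_pow]
  have h2 : ‖(stdAddChar y : ℂ) ^ m - 1‖ ≤ 2 := by
    refine (norm_sub_le _ _).trans ?_
    rw [norm_pow, norm_psi, one_pow, norm_one]
    norm_num
  rw [← h1, norm_mul] at h2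
  exact (mul_le_mul_of_nonneg_left (psi_sub_one_ge y) (norm_nonneg _)).trans h2

theorem Fk_decay (m : ℕ) (hm : 1 ≤ m) (y : ZMod N) (hy : y ≠ 0) :
    Fk m y ≤ (N : ℝ) ^ 2 / (4 * m * (zd y) ^ 2) := by
  have hN0 : (0 : ℝ) < N := by exact_mod_cast (NeZero.pos N)
  have hm0 : (0 : ℝ) < m := by exact_mod_cast hm
  have hz : (0 : ℝ) < zd y := by exact_mod_cast zd_pos hy
  have h := Dk_decay m y
  have h1 : ‖Dk m y‖ ≤ N / (2 * zd y) := by
    rw [le_div_iff₀ (by positivity)]
    have : ‖Dk m y‖ * (4 * (zd y : ℝ) / N) = (‖Dk m y‖ * (2 * zd y)) * (2 / N) := by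
      field_simp
      ring
    rw [this, mul_div_assoc', div_le_iff₀ hN0] at h
    linarith
  unfold Fk
  rw [div_le_div_iff₀ hm0 (by positivity)]
  have h2 : ‖Dk m y‖ ^ 2 ≤ (N / (2 * zd y)) ^ 2 := pow_le_pow_left₀ (norm_nonneg _) h1 2
  calc ‖Dk m y‖ ^ 2 * (4 * m * (zd y) ^ 2) ≤ (N / (2 * zd y)) ^ 2 * (4 * m * (zd y) ^ 2) :=
        mul_le_mul_of_nonneg_right h2 (by positivity)
    _ = N ^ 2 * m := by field_simp; ring

/-- The majorant. -/
noncomputable def ph (N m : ℕ) (v : ℕ) : ℝ := min (m * v : ℝ) ((N : ℝ) ^ 2 / (4 * m * v))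

theorem ph_nonneg (N m v : ℕ) : 0 ≤ ph N m v := by unfold ph; positivity

theorem Fk_mul_zd (m : ℕ) (hm : 1 ≤ m) (y : ZMod N) : Fk m y * zd y ≤ ph N m (zd y) := by
  unfold ph
  by_cases hy : y = 0
  · subst hy
    have : zd (0 : ZMod N) = 0 := by unfold zd; simp
    rw [this]
    simp
  · have hz : (0 : ℝ) < zd y := by exact_mod_cast zd_pos hy
    have hm0 : (0 : ℝ) < m := by exact_mod_cast hm
    refine le_min (mul_le_mul_of_nonneg_right (Fk_le m y) hz.le) ?_
    refine (mul_le_mul_of_nonneg_right (Fk_decay m hm y hy) hz.le).trans (le_of_eq ?_)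
    field_simp

theorem sum_ph (m n k : ℕ) (hm : 1 ≤ m) (hn : 1 ≤ n) (hN : m * n = N) :
    ∑ v ∈ Ioc 0 (n * 2 ^ k), ph N m v ≤ (N : ℝ) ^ 2 / m * (1 + k / 4) := by
  have hm0 : (0 : ℝ) < m := by exact_mod_cast hm
  have hn0 : (0 : ℝ) < n := by exact_mod_cast hn
  have hN' : (N : ℝ) = m * n := by exact_mod_cast hN.symm
  induction k with
  | zero =>
    have h1 : ∀ v ∈ Ioc 0 (n * 2 ^ 0), ph N m v ≤ m * n := by
      intro v hv
      rw [pow_zero, mul_one, mem_Ioc] at hv
      refine (min_le_left _ _).trans ?_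
      have : (v : ℝ) ≤ n := by exact_mod_cast hv.2
      gcongr
    refine (Finset.sum_le_sum h1).trans ?_
    rw [sum_const, Nat.card_Ioc, nsmul_eq_mul, hN']
    rw [pow_zero, Nat.sub_zero]
    push_cast
    apply le_of_eq
    field_simp
    ring
  | succ k ih =>
    have hsplit : Ioc 0 (n * 2 ^ (k + 1)) = Ioc 0 (n * 2 ^ k) ∪ Ioc (n * 2 ^ k) (n * 2 ^ (k + 1)) := by
      rw [Finset.Ioc_union_Ioc_eq_Ioc (Nat.zero_le _)]
      rw [pow_succ]
      nlinarith [Nat.zero_le (n * 2 ^ k)]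
    rw [hsplit, Finset.sum_union (by
      rw [Finset.disjoint_left]
      intro x hx hx'
      rw [mem_Ioc] at hx hx'
      omega)]
    have h1 : ∀ v ∈ Ioc (n * 2 ^ k) (n * 2 ^ (k + 1)), ph N m v ≤
        (N : ℝ) ^ 2 / (4 * m * (n * 2 ^ k)) := by
      intro v hv
      rw [mem_Ioc] at hv
      refine (min_le_right _ _).trans ?_
      have h2 : ((n : ℝ) * 2 ^ k) ≤ v := by exact_mod_cast hv.1.le
      gcongr
    have h3 := Finset.sum_le_sum h1
    rw [sum_const, Nat.card_Ioc, nsmul_eq_mul] at h3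
    have h4 : ((n * 2 ^ (k + 1) - n * 2 ^ k : ℕ) : ℝ) = n * 2 ^ k := by
      have : n * 2 ^ (k + 1) - n * 2 ^ k = n * 2 ^ k := by
        have : n * 2 ^ (k + 1) = n * 2 ^ k + n * 2 ^ k := by ring
        omega
      rw [this]
      push_cast
      ring
    rw [h4] at h3
    have h5 : (n : ℝ) * 2 ^ k * ((N : ℝ) ^ 2 / (4 * m * (n * 2 ^ k))) = (N : ℝ) ^ 2 / m / 4 := by
      field_simp
    rw [h5] at h3
    push_cast
    have h6 : (N : ℝ) ^ 2 / m * (1 + (k + 1) / 4) = (N : ℝ) ^ 2 / m * (1 + k / 4) +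
        (N : ℝ) ^ 2 / m / 4 := by ring
    rw [h6]
    exact add_le_add ih h3

theorem sum_zmod_val {M : Type*} [AddCommMonoid M] (g : ℕ → M) :
    ∑ y : ZMod N, g y.val = ∑ v ∈ range N, g v := by
  refine Finset.sum_nbij' (fun y => y.val) (fun v => (v : ZMod N)) ?_ ?_ ?_ ?_ ?_
  · intro y _; exact mem_range.2 (ZMod.val_lt y)
  · intro v _; exact mem_univ _
  · intro y _; exact ZMod.natCast_zmod_val y
  · intro v hv; exact ZMod.val_natCast_of_lt (mem_range.1 hv)
  · intro y _; rfl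

/-- First moment of the Fejer kernel. -/
theorem moment_Fk (m a : ℕ) (hm : m = 2 ^ a) (hd : m ∣ N) :
    ∑ y : ZMod N, Fk m y * zd y ≤ (N : ℝ) ^ 2 / m * (2 + a / 2) := by
  have hm1 : 1 ≤ m := by rw [hm]; exact Nat.one_le_two_pow
  obtain ⟨n, hn⟩ := hd
  have hn1 : 1 ≤ n := by
    rcases Nat.eq_zero_or_pos n with h | h
    · subst h
      exact absurd (hn.trans (mul_zero m)) (NeZero.ne N)
    · exact h
  have h1 : ∀ y : ZMod N, Fk m y * zd y ≤ ph N m y.val + ph N m (N - y.val) := by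
    intro y
    refine (Fk_mul_zd m hm1 y).trans ?_
    unfold zd
    rcases min_choice y.val (N - y.val) with h | h
    · rw [h]; linarith [ph_nonneg N m (N - y.val)]
    · rw [h]; linarith [ph_nonneg N m y.val]
  refine (Finset.sum_le_sum fun y _ => h1 y).trans ?_
  rw [Finset.sum_add_distrib, sum_zmod_val (fun v => ph N m v),
    sum_zmod_val (fun v => ph N m (N - v))]
  have h2 := sum_ph (N := N) m n a hm1 hn1 hn.symm
  have h3 : n * 2 ^ a = N := by rw [← hm, hn, mul_comm]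
  rw [h3] at h2
  have h4 : ∑ v ∈ range N, ph N m v ≤ ∑ v ∈ Ioc 0 N, ph N m v := by
    have h5 : ∑ v ∈ range (N + 1), ph N m v = ph N m 0 + ∑ v ∈ Ioc 0 N, ph N m v := by
      rw [Finset.sum_range_succ', add_comm]
      congr 1
      rw [Finset.range_eq_Ico, Finset.sum_Ico_add' (fun v => ph N m v) 0 N 1]
      refine Finset.sum_congr ?_ fun _ _ => rfl
      ext x
      simp only [mem_Ico, mem_Ioc]
      omega
    have h6 : ph N m 0 = 0 := by unfold ph; simp
    rw [Finset.sum_range_succ, h6, zero_add] at h5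
    linarith [ph_nonneg N m N]
  have h7 : ∑ v ∈ range N, ph N m (N - v) = ∑ v ∈ Ioc 0 N, ph N m v := by
    refine Finset.sum_nbij' (fun v => N - v) (fun v => N - v) ?_ ?_ ?_ ?_ ?_
    · intro v hv; rw [mem_range] at hv; rw [mem_Ioc]; omega
    · intro v hv; rw [mem_Ioc] at hv; rw [mem_range]; omega
    · intro v hv; rw [mem_range] at hv; omega
    · intro v hv; rw [mem_Ioc] at hv; omega
    · intro v _; rfl
  rw [h7]
  have h8 : (N : ℝ) ^ 2 / m * (2 + a / 2) = 2 * ((N : ℝ) ^ 2 / m * (1 + a / 4)) := by ring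
  rw [h8]
  linarith

end Ker

end Pool.Agent.MP_a7b2aa_an
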