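import Pool.Agent.Lib.MP_a7b2aa_an.T12

/-!
Parseval for frequency blocks on the grid and Riemann sums over dyadic grids.
-/

set_option autoImplicit false

open Filter Topology

namespace Pool.Agent.MP_a7b2aa_an

open Finset ZMod in
theorem sum_char {d : ℕ} {N : ℕ} [NeZero N] (m : Fin d → ZMod N) :
    ∑ x : Fin d → ZMod N, ∏ j, (stdAddChar (m j * x j) : ℂ) = if m = 0 then (N : ℂ) ^ d else 0 := by
  have h2 := Finset.prod_univ_sum (fun _ : Fin d => (univ : Finset (ZMod N)))
    (fun j y => (stdAddChar (m j * y) : ℂ))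
  rw [Fintype.piFinset_univ] at h2
  rw [← h2]
  simp_rw [sum_psi]
  split_ifs with h
  · subst h
    simp
  · obtain ⟨j, hj⟩ : ∃ j, m j ≠ 0 := by
      by_contra hc
      push Not at hc
      exact h (funext hc)
    exact Finset.prod_eq_zero (Finset.mem_univ j) (if_neg hj)

open ZMod in
theorem blockPoly_gp (L : ℕ) {d : ℕ} (c : (Fin d → ℤ) → ℂ) (s : Fin d → ℕ)
    (x : Fin d → ZMod (2 ^ L)) :
    blockPoly c s (gp L x) = ∑ k ∈ Fintype.piFinset (fun j => blk (s j)),
      c k * ∏ j, (stdAddChar ((k j : ZMod (2 ^ L)) * x j) : ℂ) := by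
  unfold blockPoly gp
  refine Finset.sum_congr rfl fun k _ => ?_
  congr 1
  rw [Finset.mul_sum, Complex.exp_sum]
  refine Finset.prod_congr rfl fun j _ => ?_
  rw [psi_gp]

theorem blk_disj {s t : ℕ} {k : ℤ} (h1 : k ∈ blk s) (h2 : k ∈ blk t) : s = t := by
  have a1 := mem_blk h1
  have a2 := mem_blk h2
  have key : ∀ u v : ℕ, u < v → (2 : ℕ) ^ u ≤ 2 ^ v / 2 := by
    intro u v huv
    rw [Nat.le_div_iff_mul_le (by norm_num), ← pow_succ]
    exact Nat.pow_le_pow_right (by norm_num) huv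
  rcases lt_trichotomy s t with h | h | h
  · have := key s t h
    omega
  · exact h
  · have := key t s h
    omega

open ZMod in
theorem cross_zero {d : ℕ} (L n : ℕ) (hL : n + 2 ≤ L) (c : (Fin d → ℤ) → ℂ) (t t' : Fin d → ℕ)
    (ht : ∀ i, t i ≤ n) (ht' : ∀ i, t' i ≤ n) (hne : t ≠ t') :
    ∑ x : Fin d → ZMod (2 ^ L), blockPoly c t (gp L x) *
      (starRingEnd ℂ) (blockPoly c t' (gp L x)) = 0 := by
  simp_rw [blockPoly_gp]
  have h1 : ∀ x : Fin d → ZMod (2 ^ L),
      (∑ k ∈ Fintype.piFinset (fun j => blk (t j)),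
        c k * ∏ j, (stdAddChar ((k j : ZMod (2 ^ L)) * x j) : ℂ)) *
      (starRingEnd ℂ) (∑ k ∈ Fintype.piFinset (fun j => blk (t' j)),
        c k * ∏ j, (stdAddChar ((k j : ZMod (2 ^ L)) * x j) : ℂ)) =
      ∑ k ∈ Fintype.piFinset (fun j => blk (t j)), ∑ l ∈ Fintype.piFinset (fun j => blk (t' j)),
        c k * (starRingEnd ℂ) (c l) *
          ∏ j, (stdAddChar (((k j : ZMod (2 ^ L)) - (l j : ZMod (2 ^ L))) * x j) : ℂ) := by
    intro x
    rw [map_sum, Finset.sum_mul_sum]
    refine Finset.sum_congr rfl fun k _ => Finset.sum_congr rfl fun l _ => ?_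
    rw [map_mul, map_prod]
    have h2 : ∏ j, (stdAddChar (((k j : ZMod (2 ^ L)) - (l j : ZMod (2 ^ L))) * x j) : ℂ) =
        (∏ j, (stdAddChar ((k j : ZMod (2 ^ L)) * x j) : ℂ)) *
        ∏ j, (starRingEnd ℂ) (stdAddChar ((l j : ZMod (2 ^ L)) * x j) : ℂ) := by
      rw [← Finset.prod_mul_distrib]
      refine Finset.prod_congr rfl fun j _ => ?_
      rw [conj_psi, ← AddChar.map_add_eq_mul]
      congr 1
      ring
    rw [h2]
    ring
  simp_rw [h1]
  rw [Finset.sum_comm]
  refine Finset.sum_eq_zero fun k hk => ?_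
  rw [Finset.sum_comm]
  refine Finset.sum_eq_zero fun l hl => ?_
  rw [← Finset.mul_sum]
  have h3 := sum_char (fun j => (k j : ZMod (2 ^ L)) - (l j : ZMod (2 ^ L)))
  rw [if_neg ?_] at h3
  · rw [h3, mul_zero]
  · intro h0
    apply hne
    funext j
    rw [Fintype.mem_piFinset] at hk hl
    have a1 := mem_blk (hk j)
    have a2 := mem_blk (hl j)
    have hkl : k j = l j := by
      have h4 := congrFun h0 j
      simp only [Pi.zero_apply] at h4
      have h5 : ((k j - l j : ℤ) : ZMod (2 ^ L)) = 0 := by push_cast; exact h4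
      rw [ZMod.intCast_zmod_eq_zero_iff_dvd] at h5
      have b1 : (2 : ℕ) ^ t j ≤ 2 ^ n := Nat.pow_le_pow_right (by norm_num) (ht j)
      have b2 : (2 : ℕ) ^ t' j ≤ 2 ^ n := Nat.pow_le_pow_right (by norm_num) (ht' j)
      have b3 : (2 : ℕ) ^ (n + 2) ≤ 2 ^ L := Nat.pow_le_pow_right (by norm_num) hL
      have b4 : (2 : ℕ) ^ (n + 2) = 4 * 2 ^ n := by ring
      obtain ⟨e, he⟩ := h5
      have b5 : ((2 ^ L : ℕ) : ℤ) = 2 ^ L := by push_cast; rfl
      rcases eq_or_ne e 0 with h6 | h6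
      · rw [h6, mul_zero] at he
        omega
      · exfalso
        have h7 : (2 ^ L : ℕ) ≤ (k j - l j).natAbs := by
          rw [he, Int.natAbs_mul, Int.natAbs_natCast]
          exact Nat.le_mul_of_pos_right _ (Int.natAbs_pos.2 h6)
        omega
    exact blk_disj (hk j) (hkl ▸ hl j)

/-- R1: Parseval for blocks on the grid. -/
theorem sum_norm_sq_blocks {d : ℕ} (L n : ℕ) (hL : n + 2 ≤ L) (T : Finset (Fin d → ℕ))
    (hT : ∀ t ∈ T, ∀ i, t i ≤ n) (c : (Fin d → ℤ) → ℂ) :
    ∑ t ∈ T, ∑ x : Fin d → ZMod (2 ^ L), ‖blockPoly c t (gp L x)‖ ^ 2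
      = ∑ x : Fin d → ZMod (2 ^ L), ‖∑ t ∈ T, blockPoly c t (gp L x)‖ ^ 2 := by
  have key : (∑ x : Fin d → ZMod (2 ^ L), ((‖∑ t ∈ T, blockPoly c t (gp L x)‖ ^ 2 : ℝ) : ℂ)) =
      ∑ t ∈ T, ∑ x : Fin d → ZMod (2 ^ L), ((‖blockPoly c t (gp L x)‖ ^ 2 : ℝ) : ℂ) := by
    have h1 : ∀ x : Fin d → ZMod (2 ^ L), ((‖∑ t ∈ T, blockPoly c t (gp L x)‖ ^ 2 : ℝ) : ℂ) =
        ∑ t ∈ T, ∑ t' ∈ T, blockPoly c t (gp L x) *
          (starRingEnd ℂ) (blockPoly c t' (gp L x)) := by
      intro x
      rw [Complex.ofReal_pow, ← Complex.mul_conj', map_sum, Finset.sum_mul_sum]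
    simp_rw [h1]
    rw [Finset.sum_comm]
    refine Finset.sum_congr rfl fun t ht => ?_
    rw [Finset.sum_comm, Finset.sum_eq_single t]
    · refine Finset.sum_congr rfl fun x _ => ?_
      rw [Complex.mul_conj', ← Complex.ofReal_pow]
    · intro t' ht' hne
      exact cross_zero L n hL c t t' (hT t ht) (hT t' ht') hne.symm
    · intro h
      exact absurd ht h
  have h2 : (((∑ t ∈ T, ∑ x : Fin d → ZMod (2 ^ L), ‖blockPoly c t (gp L x)‖ ^ 2 : ℝ)) : ℂ) =
      ((∑ x : Fin d → ZMod (2 ^ L), ‖∑ t ∈ T, blockPoly c t (gp L x)‖ ^ 2 : ℝ) : ℂ) := by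
    push_cast
    push_cast at key
    exact key.symm
  exact_mod_cast h2

open scoped Pointwise in
/-- R2: Riemann sums over the dyadic grids. -/
theorem tendsto_grid {d : ℕ} (F : (Fin d → ℝ) → ℝ) (hF : Continuous F) :
    Tendsto (fun L : ℕ => (∑ x : Fin d → ZMod (2 ^ L), F (gp L x)) / ((2:ℝ) ^ L) ^ d) atTop
      (𝓝 ((1 / (2 * Real.pi)) ^ d *
        ∫ x in Set.pi Set.univ (fun _ : Fin d => Set.Icc (0:ℝ) (2 * Real.pi)), F x)) := by
  have hpi : (0 : ℝ) < 2 * Real.pi := by positivity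
  set s : Set (Fin d → ℝ) := Set.pi Set.univ (fun _ => Set.Ico (0:ℝ) 1) with hs
  have hs1 : Bornology.IsBounded s := by
    refine Bornology.IsBounded.pi fun i => Metric.isBounded_Ico 0 1
  have hs2 : MeasurableSet s := MeasurableSet.univ_pi fun i => measurableSet_Ico
  have hs3 : MeasureTheory.volume (frontier s) = 0 := by
    refine Convex.addHaar_frontier _ ?_
    exact convex_pi fun i _ => convex_Ico 0 1
  have h := tendsto_tsum_div_pow_atTop_integral s (fun x => F ((2 * Real.pi) • x))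
    (hF.comp (continuous_const_smul _)) hs1 hs2 hs3
  have h2 := h.comp (tendsto_pow_atTop_atTop_of_one_lt (r := (2 : ℕ)) (by norm_num))
  have hint : (∫ x in s, F ((2 * Real.pi) • x)) = (1 / (2 * Real.pi)) ^ d *
        ∫ x in Set.pi Set.univ (fun _ : Fin d => Set.Icc (0:ℝ) (2 * Real.pi)), F x := by
    rw [MeasureTheory.Measure.setIntegral_comp_smul_of_pos _ _ _ hpi]
    rw [Module.finrank_fin_fun, smul_eq_mul, one_div, inv_pow]
    congr 1
    have hsm : (2 * Real.pi) • s = Set.pi Set.univ (fun _ : Fin d => Set.Ico (0:ℝ) (2 * Real.pi)) := by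
      ext x
      rw [Set.mem_smul_set_iff_inv_smul_mem₀ hpi.ne']
      simp only [hs, Set.mem_pi, Set.mem_univ, forall_true_left, Set.mem_Ico, Pi.smul_apply,
        smul_eq_mul]
      refine forall_congr' fun i => ?_
      rw [inv_mul_eq_div, div_lt_one hpi]
      refine and_congr ?_ Iff.rfl
      rw [le_div_iff₀ hpi, zero_mul]
    rw [hsm]
    refine MeasureTheory.setIntegral_congr_set ?_
    have := MeasureTheory.Measure.univ_pi_Ico_ae_eq_Icc (μ := fun _ : Fin d => (MeasureTheory.volume : MeasureTheory.Measure ℝ))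
      (f := fun _ => (0:ℝ)) (g := fun _ => 2 * Real.pi)
    rw [← Set.pi_univ_Icc] at this
    exact this
  rw [hint] at h2
  refine h2.congr fun L => ?_
  simp only [Function.comp_apply, Fintype.card_fin, Nat.cast_pow, Nat.cast_ofNat]
  congr 1
  have hN : (0 : ℝ) < 2 ^ L := by positivity
  let g : (Fin d → ZMod (2 ^ L)) → ↑(s ∩ (((2 ^ L : ℕ) : ℝ))⁻¹ •
      (Submodule.span ℤ (Set.range (Pi.basisFun ℝ (Fin d))) : Set (Fin d → ℝ))) := fun x =>
    ⟨fun j => ((x j).val : ℝ) / 2 ^ L, by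
      constructor
      · intro j _
        refine ⟨by positivity, ?_⟩
        rw [div_lt_one hN]
        have := ZMod.val_lt (x j)
        exact_mod_cast this
      · exact (BoxIntegral.unitPartition.mem_smul_span_iff (n := 2 ^ L)
          (v := fun j => ((x j).val : ℝ) / 2 ^ L)).2 (fun i => ⟨((x i).val : ℤ), by
            push_cast
            field_simp⟩)⟩
  have hg : Function.Bijective g := by
    constructor
    · intro x y hxy
      have h3 := congrArg Subtype.val hxy
      funext j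
      have h4 := congrFun h3 j
      have h5 : ((x j).val : ℝ) / 2 ^ L = ((y j).val : ℝ) / 2 ^ L := h4
      have h6 : ((x j).val : ℝ) = ((y j).val : ℝ) := by
        field_simp at h5
        exact h5
      exact ZMod.val_injective _ (by exact_mod_cast h6)
    · rintro ⟨y, hy1, hy2⟩
      have h3 := (BoxIntegral.unitPartition.mem_smul_span_iff (n := 2 ^ L) (v := y)).1 hy2
      choose z hz using h3
      push_cast at hz
      refine ⟨fun j => (z j : ZMod (2 ^ L)), ?_⟩
      apply Subtype.ext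
      funext j
      show (((z j : ZMod (2 ^ L))).val : ℝ) / 2 ^ L = y j
      have h4 := hy1 j (Set.mem_univ j)
      have h5 : (algebraMap ℤ ℝ) (z j) = (z j : ℝ) := rfl
      have hzj := hz j
      have h0 : (0 : ℤ) ≤ z j := by
        have : (0 : ℝ) ≤ (z j : ℝ) := by
          rw [← h5, hzj]
          have := h4.1
          positivity
        exact_mod_cast this
      have h1 : z j < 2 ^ L := by
        have : (z j : ℝ) < 2 ^ L := by
          rw [← h5, hzj]
          have := h4.2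
          nlinarith
        exact_mod_cast this
      have h6 : (((z j : ZMod (2 ^ L))).val : ℤ) = z j := by
        rw [ZMod.val_intCast]
        push_cast
        exact Int.emod_eq_of_lt h0 h1
      have h7 : (((z j : ZMod (2 ^ L))).val : ℝ) = (z j : ℝ) := by exact_mod_cast h6
      rw [h7, ← h5, hzj]
      field_simp
  rw [← (Equiv.ofBijective g hg).tsum_eq, tsum_fintype]
  refine Finset.sum_congr rfl fun x _ => ?_
  congr 1
  funext j
  show 2 * Real.pi * (((x j).val : ℝ) / 2 ^ L) = 2 * Real.pi * ((x j).val : ℝ) / 2 ^ L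
  ring

end Pool.Agent.MP_a7b2aa_an
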