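import Pool.Agent.Lib.MP_a7b2aa_an.Cells

/-!
The two analysis lemmas for the trigonometric small ball inequality.
-/

set_option autoImplicit false

namespace Pool.Agent.MP_a7b2aa_an

open Finset ZMod

set_option linter.unusedSectionVars false

section general
variable {N : ℕ} [NeZero N] {d : ℕ}

/-- Exchange of a coordinate. -/
theorem swap_sum {M : Type*} [AddCommMonoid M] (i : Fin d)
    (F : ZMod N → ZMod N → (Fin d → ZMod N) → M) :
    ∑ x : Fin d → ZMod N, ∑ y : ZMod N, F (x i) y (Function.update x i y) =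
      ∑ x : Fin d → ZMod N, ∑ y : ZMod N, F y (x i) x := by
  rw [← Fintype.sum_prod_type', ← Fintype.sum_prod_type']
  refine Finset.sum_nbij' (fun p => (Function.update p.1 i p.2, p.1 i))
    (fun p => (Function.update p.1 i p.2, p.1 i)) ?_ ?_ ?_ ?_ ?_
  · intro p _; exact mem_univ _
  · intro p _; exact mem_univ _
  · rintro ⟨x, y⟩ _
    simp
  · rintro ⟨x, y⟩ _
    simp
  · rintro ⟨x, y⟩ _
    simp

/-- Bound of a kernel operator in one coordinate. -/
theorem op_bound (i : Fin d) (K : ZMod N → ZMod N → ℝ) (M : ℝ)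
    (hK : ∀ y, ∑ z : ZMod N, |K y z| ≤ M) (G : (Fin d → ZMod N) → ℂ) :
    ∑ x : Fin d → ZMod N, ‖∑ y : ZMod N, (K y (x i) : ℂ) * G (Function.update x i y)‖ ≤
      M * ∑ x : Fin d → ZMod N, ‖G x‖ := by
  have h1 : ∀ x : Fin d → ZMod N, ‖∑ y : ZMod N, (K y (x i) : ℂ) * G (Function.update x i y)‖ ≤
      ∑ y : ZMod N, |K y (x i)| * ‖G (Function.update x i y)‖ := by
    intro x
    refine (norm_sum_le _ _).trans (le_of_eq ?_)
    refine Finset.sum_congr rfl fun y _ => ?_
    rw [norm_mul, Complex.norm_real, Real.norm_eq_abs]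
  refine (Finset.sum_le_sum fun x _ => h1 x).trans ?_
  rw [swap_sum i (fun a y x' => |K y a| * ‖G x'‖), Finset.mul_sum]
  refine Finset.sum_le_sum fun x _ => ?_
  rw [← Finset.sum_mul]
  exact mul_le_mul_of_nonneg_right (hK (x i)) (norm_nonneg _)

/-- Product functions with one coordinate changed. -/
theorem prod_update (i : Fin d) (f : Fin d → ZMod N → ℂ) (z : Fin d → ZMod N) (y : ZMod N) :
    ∏ j, f j (Function.update z i y j) = f i y * ∏ j ∈ ({i} : Finset (Fin d))ᶜ, f j (z j) := by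
  rw [Fintype.prod_eq_mul_prod_compl i, Function.update_self]
  congr 1
  refine Finset.prod_congr rfl fun j hj => ?_
  rw [Function.update_of_ne]
  simpa using hj

variable (c : (Fin d → ℤ) → ℂ) (B : Finset (Fin d → ℤ)) (u : Fin d → ℤ → ZMod N → ℂ)

/-- Hybrid functions: in the coordinates in `A` the exponentials are replaced. -/
noncomputable def HA (A : Finset (Fin d)) (z : Fin d → ZMod N) : ℂ :=
  ∑ k ∈ B, c k * ∏ j, (if j ∈ A then u j (k j) (z j) else stdAddChar ((k j : ZMod N) * z j))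

/-- A kernel in a coordinate outside `A`. -/
theorem HA_kernel (A : Finset (Fin d)) (i : Fin d) (hi : i ∉ A) (K : ZMod N → ZMod N → ℝ)
    (z : Fin d → ZMod N) :
    ∑ y : ZMod N, (K y (z i) : ℂ) * HA c B u A (Function.update z i y) =
      ∑ k ∈ B, c k * ((∑ y : ZMod N, (K y (z i) : ℂ) * stdAddChar ((k i : ZMod N) * y)) *
        ∏ j ∈ ({i} : Finset (Fin d))ᶜ,
          (if j ∈ A then u j (k j) (z j) else stdAddChar ((k j : ZMod N) * z j))) := by
  unfold HA
  have h1 : ∀ y : ZMod N, (K y (z i) : ℂ) * ∑ k ∈ B, c k * ∏ j, (if j ∈ A then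
      u j (k j) (Function.update z i y j) else
        (stdAddChar ((k j : ZMod N) * Function.update z i y j) : ℂ)) =
      ∑ k ∈ B, c k * (((K y (z i) : ℂ) * stdAddChar ((k i : ZMod N) * y)) *
        ∏ j ∈ ({i} : Finset (Fin d))ᶜ,
          (if j ∈ A then u j (k j) (z j) else stdAddChar ((k j : ZMod N) * z j))) := by
    intro y
    rw [Finset.mul_sum]
    refine Finset.sum_congr rfl fun k _ => ?_
    have h2 := prod_update i (fun j t => if j ∈ A then u j (k j) t else
      (stdAddChar ((k j : ZMod N) * t) : ℂ)) z y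
    rw [h2, if_neg hi]
    ring
  simp_rw [h1]
  rw [Finset.sum_comm]
  refine Finset.sum_congr rfl fun k _ => ?_
  rw [← Finset.mul_sum, ← Finset.sum_mul]

theorem HA_insert (A : Finset (Fin d)) (i : Fin d) (hi : i ∉ A) (K : ZMod N → ZMod N → ℝ)
    (hu : ∀ (k : ℤ) (z : ZMod N), ∑ y : ZMod N, (K y z : ℂ) * stdAddChar ((k : ZMod N) * y) = N * u i k z)
    (z : Fin d → ZMod N) :
    ∑ y : ZMod N, (K y (z i) : ℂ) * HA c B u A (Function.update z i y) =
      N * HA c B u (insert i A) z := by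
  rw [HA_kernel c B u A i hi K z]
  unfold HA
  rw [Finset.mul_sum]
  refine Finset.sum_congr rfl fun k _ => ?_
  rw [hu, Fintype.prod_eq_mul_prod_compl i, if_pos (mem_insert_self i A)]
  have h1 : ∏ j ∈ ({i} : Finset (Fin d))ᶜ, (if j ∈ insert i A then u j (k j) (z j) else
      (stdAddChar ((k j : ZMod N) * z j) : ℂ)) =
      ∏ j ∈ ({i} : Finset (Fin d))ᶜ, (if j ∈ A then u j (k j) (z j) else
      (stdAddChar ((k j : ZMod N) * z j) : ℂ)) := by
    refine Finset.prod_congr rfl fun j hj => ?_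
    have hji : j ≠ i := by simpa using hj
    by_cases hA : j ∈ A
    · rw [if_pos hA, if_pos (mem_insert_of_mem hA)]
    · rw [if_neg hA, if_neg (fun h => (mem_insert.1 h).elim hji hA)]
  rw [h1]
  ring

theorem HA_delta (A : Finset (Fin d)) (i : Fin d) (hi : i ∉ A) (v : ZMod N → ℝ) (δ : ℂ)
    (hv : ∀ k ∈ B, ∀ z, ∑ y : ZMod N, (v (y - z) : ℂ) * stdAddChar ((k i : ZMod N) * y) =
      N * (δ * stdAddChar ((k i : ZMod N) * z)))
    (z : Fin d → ZMod N) :
    ∑ y : ZMod N, (v (y - z i) : ℂ) * HA c B u A (Function.update z i y) =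
      N * (δ * HA c B u A z) := by
  rw [HA_kernel c B u A i hi (fun y z => v (y - z)) z]
  unfold HA
  rw [Finset.mul_sum, Finset.mul_sum]
  refine Finset.sum_congr rfl fun k hk => ?_
  rw [hv k hk, Fintype.prod_eq_mul_prod_compl i, if_neg hi]
  ring

/-- The main telescoping estimate. -/
theorem HA_estimate (K : Fin d → ZMod N → ZMod N → ℝ) (v : Fin d → ZMod N → ℝ) (δ : Fin d → ℂ)
    (hδ : ∀ i, δ i = 0 ∨ δ i = 1)
    (hu : ∀ i (k : ℤ) (z : ZMod N), ∑ y : ZMod N, (K i y z : ℂ) * stdAddChar ((k : ZMod N) * y) = N * u i k z)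
    (hv : ∀ i, ∀ k ∈ B, ∀ z, ∑ y : ZMod N, (v i (y - z) : ℂ) * stdAddChar ((k i : ZMod N) * y) =
      N * (δ i * stdAddChar ((k i : ZMod N) * z)))
    (hK : ∀ i y, ∑ z : ZMod N, |K i y z| ≤ 12 * N) (ε : ℝ) (hε : 0 ≤ ε)
    (hKv : ∀ i y, ∑ z : ZMod N, |K i y z - v i (y - z)| ≤ ε * N) (A : Finset (Fin d)) :
    (∑ z, ‖HA c B u A z‖ ≤ 12 ^ A.card * ∑ z, ‖HA c B u ∅ z‖) ∧
    (∑ z, ‖HA c B u A z - (∏ i ∈ A, δ i) * HA c B u ∅ z‖ ≤
      ε * (∑ j ∈ range A.card, 12 ^ j) * ∑ z, ‖HA c B u ∅ z‖) := by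
  have hN : (0 : ℝ) < N := by exact_mod_cast NeZero.pos N
  have hN' : (N : ℂ) ≠ 0 := by exact_mod_cast NeZero.ne N
  induction A using Finset.induction_on with
  | empty => simp
  | insert i A hi ih =>
    obtain ⟨ih1, ih2⟩ := ih
    have hP : 0 ≤ ∑ z, ‖HA c B u ∅ z‖ := Finset.sum_nonneg fun _ _ => norm_nonneg _
    have e1 : ∑ z, ‖HA c B u (insert i A) z‖ ≤ 12 * ∑ z, ‖HA c B u A z‖ := by
      have h1 := op_bound i (K i) (12 * N) (hK i) (HA c B u A)
      simp_rw [HA_insert c B u A i hi (K i) (hu i), norm_mul, Complex.norm_natCast] at h1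
      rw [← Finset.mul_sum] at h1
      have h2 : (N : ℝ) * ∑ z, ‖HA c B u (insert i A) z‖ ≤
          N * (12 * ∑ z, ‖HA c B u A z‖) := by linarith
      exact le_of_mul_le_mul_left h2 hN
    have e2 : ∑ z, ‖HA c B u (insert i A) z - δ i * HA c B u A z‖ ≤
        ε * ∑ z, ‖HA c B u A z‖ := by
      have h1 := op_bound i (fun y z => K i y z - v i (y - z)) (ε * N) (hKv i) (HA c B u A)
      have h3 : ∀ z : Fin d → ZMod N, ∑ y : ZMod N, ((K i y (z i) - v i (y - z i) : ℝ) : ℂ) *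
          HA c B u A (Function.update z i y) =
          N * (HA c B u (insert i A) z - δ i * HA c B u A z) := by
        intro z
        push_cast
        simp_rw [sub_mul]
        rw [Finset.sum_sub_distrib, HA_insert c B u A i hi (K i) (hu i),
          HA_delta c B u A i hi (v i) (δ i) (hv i)]
        ring
      simp_rw [h3, norm_mul, Complex.norm_natCast] at h1
      rw [← Finset.mul_sum] at h1
      have h2 : (N : ℝ) * ∑ z, ‖HA c B u (insert i A) z - δ i * HA c B u A z‖ ≤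
          N * (ε * ∑ z, ‖HA c B u A z‖) := by linarith
      exact le_of_mul_le_mul_left h2 hN
    rw [card_insert_of_notMem hi]
    constructor
    · refine e1.trans ?_
      rw [pow_succ]
      linarith
    · rw [Finset.prod_insert hi, Finset.sum_range_succ]
      have hδn : ‖δ i‖ ≤ 1 := by
        rcases hδ i with h | h <;> rw [h] <;> simp
      have h4 : ∀ z, ‖HA c B u (insert i A) z - δ i * (∏ i ∈ A, δ i) * HA c B u ∅ z‖ ≤
          ‖HA c B u (insert i A) z - δ i * HA c B u A z‖ +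
            ‖HA c B u A z - (∏ i ∈ A, δ i) * HA c B u ∅ z‖ := by
        intro z
        have h5 : HA c B u (insert i A) z - δ i * (∏ i ∈ A, δ i) * HA c B u ∅ z =
            (HA c B u (insert i A) z - δ i * HA c B u A z) +
              δ i * (HA c B u A z - (∏ i ∈ A, δ i) * HA c B u ∅ z) := by ring
        rw [h5]
        refine (norm_add_le _ _).trans ?_
        rw [norm_mul]
        have := mul_le_mul_of_nonneg_right hδn
          (norm_nonneg (HA c B u A z - (∏ i ∈ A, δ i) * HA c B u ∅ z))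
        linarith
      refine (Finset.sum_le_sum fun z _ => h4 z).trans ?_
      rw [Finset.sum_add_distrib]
      have h6 : ε * ∑ z, ‖HA c B u A z‖ ≤ ε * (12 ^ A.card * ∑ z, ‖HA c B u ∅ z‖) :=
        mul_le_mul_of_nonneg_left ih1 hε
      have h7 : ε * (∑ j ∈ range A.card, (12 : ℝ) ^ j + 12 ^ A.card) * ∑ z, ‖HA c B u ∅ z‖ =
          ε * (∑ j ∈ range A.card, (12 : ℝ) ^ j) * ∑ z, ‖HA c B u ∅ z‖ +
            ε * (12 ^ A.card * ∑ z, ‖HA c B u ∅ z‖) := by ring
      rw [h7]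
      linarith

/-- The full product kernel. -/
theorem sum_prod_kernel (K : Fin d → ZMod N → ZMod N → ℝ)
    (hu : ∀ i (k : ℤ) (z : ZMod N), ∑ y : ZMod N, (K i y z : ℂ) * stdAddChar ((k : ZMod N) * y) = N * u i k z)
    (z : Fin d → ZMod N) :
    ∑ x : Fin d → ZMod N, HA c B u ∅ x * ∏ i, (K i (x i) (z i) : ℂ) =
      (N : ℂ) ^ d * HA c B u univ z := by
  unfold HA
  simp only [notMem_empty, if_false, mem_univ, if_true]
  simp_rw [Finset.sum_mul]
  rw [Finset.sum_comm, Finset.mul_sum]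
  refine Finset.sum_congr rfl fun k _ => ?_
  have h1 : ∀ x : Fin d → ZMod N, c k * (∏ j, (stdAddChar ((k j : ZMod N) * x j) : ℂ)) *
      ∏ i, (K i (x i) (z i) : ℂ) =
      c k * ∏ j, ((K j (x j) (z j) : ℂ) * stdAddChar ((k j : ZMod N) * x j)) := by
    intro x
    rw [Finset.prod_mul_distrib]
    ring
  simp_rw [h1]
  rw [← Finset.mul_sum]
  have h2 := Finset.prod_univ_sum (fun _ : Fin d => (univ : Finset (ZMod N)))
    (fun j y => (K j y (z j) : ℂ) * stdAddChar ((k j : ZMod N) * y))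
  rw [Fintype.piFinset_univ] at h2
  rw [← h2]
  simp_rw [hu]
  rw [Finset.prod_mul_distrib, Finset.prod_const, card_univ, Fintype.card_fin]
  ring

end general

section concrete
variable {d : ℕ}

theorem psi_gp (L : ℕ) (k : ℤ) (z : ZMod (2 ^ L)) :
    (stdAddChar ((k : ZMod (2 ^ L)) * z) : ℂ) =
      Complex.exp (Complex.I * (((k : ℝ) * (2 * Real.pi * (z.val : ℝ) / 2 ^ L) : ℝ) : ℂ)) := by
  have h1 : (k : ZMod (2 ^ L)) * z = ((k * (z.val : ℤ) : ℤ) : ZMod (2 ^ L)) := by
    push_cast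
    rw [ZMod.natCast_zmod_val]
  rw [h1, stdAddChar_coe]
  congr 1
  push_cast
  ring

theorem blockPoly_eq (L : ℕ) (c : (Fin d → ℤ) → ℂ) (s : Fin d → ℕ)
    (u : Fin d → ℤ → ZMod (2 ^ L) → ℂ) (x : Fin d → ZMod (2 ^ L)) :
    blockPoly c s (gp L x) = HA c (Fintype.piFinset fun j => blk (s j)) u ∅ x := by
  unfold blockPoly HA gp
  refine Finset.sum_congr rfl fun k _ => ?_
  congr 1
  rw [Finset.mul_sum, Complex.exp_sum]
  refine Finset.prod_congr rfl fun j _ => ?_
  rw [if_neg (notMem_empty j), psi_gp]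

theorem hat_shift {N : ℕ} [NeZero N] (v : ZMod N → ℝ) (k : ℤ) (S : ℂ)
    (h : ∑ y : ZMod N, (v y : ℂ) * stdAddChar ((k : ZMod N) * y) = S) (z : ZMod N) :
    ∑ y : ZMod N, (v (y - z) : ℂ) * stdAddChar ((k : ZMod N) * y) =
      S * stdAddChar ((k : ZMod N) * z) := by
  rw [← sum_shift (fun y => (v (y - z) : ℂ) * stdAddChar ((k : ZMod N) * y)) z, ← h,
    Finset.sum_mul]
  refine Finset.sum_congr rfl fun y _ => ?_
  rw [add_sub_cancel_right, mul_add, AddChar.map_add_eq_mul]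
  ring

/-- The localised function. -/
noncomputable def loc (L w : ℕ) (s : Fin d → ℕ) (σ : (Fin d → ZMod (2 ^ L)) → ℝ)
    (x : Fin d → ZMod (2 ^ L)) : ℝ :=
  (∑ z : Fin d → ZMod (2 ^ L), (∏ i, Kk L (s i) w (x i) (z i)) * σ z) / ((2 : ℝ) ^ L) ^ d

/-- Multipliers of the localised kernels. -/
noncomputable def uu (L w : ℕ) (s : Fin d → ℕ) (i : Fin d) (k : ℤ) (z : ZMod (2 ^ L)) : ℂ :=
  (∑ y : ZMod (2 ^ L), (Kk L (s i) w y z : ℂ) * stdAddChar ((k : ZMod (2 ^ L)) * y)) /
    ((2 ^ L : ℕ) : ℂ)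

theorem uu_spec (L w : ℕ) (s : Fin d → ℕ) (i : Fin d) (k : ℤ) (z : ZMod (2 ^ L)) :
    ∑ y : ZMod (2 ^ L), (Kk L (s i) w y z : ℂ) * stdAddChar ((k : ZMod (2 ^ L)) * y) =
      ((2 ^ L : ℕ) : ℂ) * uu L w s i k z := by
  unfold uu
  rw [mul_div_cancel₀]
  exact_mod_cast (by positivity : (2 ^ L : ℕ) ≠ 0)

variable {L w n : ℕ} {s : Fin d → ℕ}

theorem loc_abs (hL : n + w + 4 ≤ L) (hsn : ∀ i, s i ≤ n) (σ : (Fin d → ZMod (2 ^ L)) → ℝ)
    (hσ : ∀ z, |σ z| ≤ 1) (x : Fin d → ZMod (2 ^ L)) : |loc L w s σ x| ≤ 12 ^ d := by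
  have hp : (0 : ℝ) < ((2 : ℝ) ^ L) ^ d := by positivity
  unfold loc
  rw [abs_div, abs_of_pos hp, div_le_iff₀ hp]
  refine (Finset.abs_sum_le_sum_abs _ _).trans ?_
  have h1 : ∀ z : Fin d → ZMod (2 ^ L), |(∏ i, Kk L (s i) w (x i) (z i)) * σ z| ≤
      ∏ i, |Kk L (s i) w (x i) (z i)| := by
    intro z
    rw [abs_mul, Finset.abs_prod]
    have h2 : 0 ≤ ∏ i, |Kk L (s i) w (x i) (z i)| := Finset.prod_nonneg fun _ _ => abs_nonneg _
    nlinarith [hσ z]
  refine (Finset.sum_le_sum fun z _ => h1 z).trans ?_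
  have h2 := Finset.prod_univ_sum (fun _ : Fin d => (univ : Finset (ZMod (2 ^ L))))
    (fun j y => |Kk L (s j) w (x j) y|)
  rw [Fintype.piFinset_univ] at h2
  rw [← h2, ← mul_pow]
  calc ∏ i, ∑ j : ZMod (2 ^ L), |Kk L (s i) w (x i) j| ≤ ∏ i : Fin d, (12 * 2 ^ L : ℝ) := by
        refine Finset.prod_le_prod (fun i _ => Finset.sum_nonneg fun _ _ => abs_nonneg _)
          fun i _ => Kk_abs (by have := hsn i; omega) (x i)
    _ = (12 * 2 ^ L) ^ d := by rw [Finset.prod_const, card_univ, Fintype.card_fin]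

theorem loc_const (hL : n + w + 4 ≤ L) (hsn : ∀ i, s i ≤ n) (σ : (Fin d → ZMod (2 ^ L)) → ℝ)
    (i : Fin d) (x y : Fin d → ZMod (2 ^ L)) (h : ∀ j, j ≠ i → x j = y j)
    (hc : cell L (s i + w) (x i) = cell L (s i + w) (y i)) : loc L w s σ x = loc L w s σ y := by
  unfold loc
  congr 1
  refine Finset.sum_congr rfl fun z _ => ?_
  congr 1
  refine Finset.prod_congr rfl fun j _ => ?_
  by_cases hj : j = i
  · subst hj
    exact Kk_const (by have := hsn j; omega) hc _
  · rw [h j hj]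

theorem loc_zero (hL : n + w + 4 ≤ L) (hsn : ∀ i, s i ≤ n) (σ : (Fin d → ZMod (2 ^ L)) → ℝ)
    (i : Fin d) (x : Fin d → ZMod (2 ^ L)) :
    ∑ z ∈ Finset.univ.filter (fun z : ZMod (2 ^ L) => cell L (s i - w) z =
      cell L (s i - w) (x i)), loc L w s σ (Function.update x i z) = 0 := by
  unfold loc
  rw [← Finset.sum_div, Finset.sum_comm]
  have h1 : ∀ z' : Fin d → ZMod (2 ^ L), ∑ z ∈ Finset.univ.filter (fun z : ZMod (2 ^ L) =>
      cell L (s i - w) z = cell L (s i - w) (x i)),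
      (∏ j, Kk L (s j) w (Function.update x i z j) (z' j)) * σ z' = 0 := by
    intro z'
    rw [← Finset.sum_mul]
    have h2 : ∀ z : ZMod (2 ^ L), ∏ j, Kk L (s j) w (Function.update x i z j) (z' j) =
        Kk L (s i) w z (z' i) * ∏ j ∈ ({i} : Finset (Fin d))ᶜ, Kk L (s j) w (x j) (z' j) := by
      intro z
      rw [Fintype.prod_eq_mul_prod_compl i, Function.update_self]
      congr 1
      refine Finset.prod_congr rfl fun j hj => ?_
      rw [Function.update_of_ne]
      simpa using hj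
    simp_rw [h2]
    rw [← Finset.sum_mul]
    have h3 := Kk_zero (L := L) (s := s i) (w := w) (by have := hsn i; omega) (x i) (z' i)
    unfold cs at h3
    rw [h3, zero_mul, zero_mul]
  rw [Finset.sum_congr rfl fun z' _ => h1 z']
  simp

theorem loc_pair (c : (Fin d → ℤ) → ℂ) (t : Fin d → ℕ) (σ : (Fin d → ZMod (2 ^ L)) → ℝ) :
    ∑ x, blockPoly c t (gp L x) * (loc L w s σ x : ℂ) =
      ∑ z, (σ z : ℂ) * HA c (Fintype.piFinset fun j => blk (t j)) (uu L w s) univ z := by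
  have hN : (((2 ^ L : ℕ) : ℂ)) ^ d ≠ 0 := by
    exact_mod_cast (by positivity : (2 ^ L : ℕ) ^ d ≠ 0)
  have h1 := fun z => sum_prod_kernel c (Fintype.piFinset fun j => blk (t j)) (uu L w s)
    (fun i => Kk L (s i) w) (fun i k z => uu_spec L w s i k z) z
  have h2 : ∀ x : Fin d → ZMod (2 ^ L), (loc L w s σ x : ℂ) =
      (∑ z, (σ z : ℂ) * ∏ i, (Kk L (s i) w (x i) (z i) : ℂ)) / (((2 ^ L : ℕ) : ℂ)) ^ d := by
    intro x
    unfold loc
    push_cast
    congr 1
    refine Finset.sum_congr rfl fun z _ => ?_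
    ring
  simp_rw [h2, blockPoly_eq L c t (uu L w s), mul_div_assoc', Finset.mul_sum, ← Finset.sum_div]
  rw [Finset.sum_comm, div_eq_iff hN, Finset.sum_mul]
  refine Finset.sum_congr rfl fun z _ => ?_
  have h3 := h1 z
  calc ∑ x, HA c (Fintype.piFinset fun j => blk (t j)) (uu L w s) ∅ x *
        ((σ z : ℂ) * ∏ i, (Kk L (s i) w (x i) (z i) : ℂ))
      = (σ z : ℂ) * ∑ x, HA c (Fintype.piFinset fun j => blk (t j)) (uu L w s) ∅ x *
        ∏ i, (Kk L (s i) w (x i) (z i) : ℂ) := by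
        rw [Finset.mul_sum]
        refine Finset.sum_congr rfl fun x _ => ?_
        ring
    _ = (σ z : ℂ) * HA c (Fintype.piFinset fun j => blk (t j)) (uu L w s) univ z *
        (((2 ^ L : ℕ) : ℂ)) ^ d := by
        rw [h3]
        ring

theorem geo_bound (d : ℕ) : 109 * ∑ j ∈ range d, (12 : ℝ) ^ j ≤ 200 ^ d := by
  induction d with
  | zero => simp
  | succ d ih =>
    rw [Finset.sum_range_succ, mul_add]
    have h1 : (12 : ℝ) ^ d ≤ 200 ^ d := pow_le_pow_left₀ (by norm_num) (by norm_num) d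
    have h2 : (0 : ℝ) ≤ 200 ^ d := by positivity
    rw [pow_succ]
    linarith

theorem loc_estimate (hs2 : ∀ i, 2 ∣ s i) (hsw : ∀ i, 2 ≤ s i ∧ w ≤ s i) (hsn : ∀ i, s i ≤ n)
    (hL : n + w + 4 ≤ L) (c : (Fin d → ℤ) → ℂ) (t : Fin d → ℕ) (ht2 : ∀ i, 2 ∣ t i)
    (htn : ∀ i, t i ≤ n) :
    ∑ z, ‖HA c (Fintype.piFinset fun j => blk (t j)) (uu L w s) univ z -
      (∏ i, (if t i = s i then (1 : ℂ) else 0)) * blockPoly c t (gp L z)‖ ≤
      (200 : ℝ) ^ d * (n + 1) / 2 ^ w * ∑ z, ‖blockPoly c t (gp L z)‖ := by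
  simp_rw [blockPoly_eq L c t (uu L w s)]
  have h := (HA_estimate (N := 2 ^ L) c (Fintype.piFinset fun j => blk (t j)) (uu L w s)
    (fun i => Kk L (s i) w) (fun i => vk (s i)) (fun i => if t i = s i then (1 : ℂ) else 0)
    (fun i => by split_ifs <;> simp) (fun i k z => uu_spec L w s i k z)
    (fun i k hk z => by
      have hki : k i ∈ blk (t i) := (Fintype.mem_piFinset.1 hk) i
      have hN : 2 ^ t i + 2 * 2 ^ s i ≤ 2 ^ L := by
        have h1 : 2 ^ t i ≤ 2 ^ n := Nat.pow_le_pow_right (by norm_num) (htn i)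
        have h2 : 2 ^ s i ≤ 2 ^ n := Nat.pow_le_pow_right (by norm_num) (hsn i)
        have h3 : 2 ^ (n + 4) ≤ 2 ^ L := Nat.pow_le_pow_right (by norm_num) (by omega)
        have h4 : 2 ^ (n + 4) = 16 * 2 ^ n := by ring
        omega
      rw [hat_shift (vk (s i)) (k i) _
        (hat_vk (N := 2 ^ L) (s i) (t i) (hsw i).1 (hs2 i) (ht2 i) (k i) hki hN) z]
      split_ifs <;> ring)
    (fun i y => by
      have := Kk_abs (L := L) (s := s i) (w := w) (by have := hsn i; omega) y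
      push_cast
      exact this)
    (109 * (n + 1) / 2 ^ w) (by positivity)
    (fun i y => by
      have h1 := Kk_diff (L := L) (s := s i) (w := w) (hsw i).1 (hs2 i) (hsw i).2
        (by have := hsn i; omega) y
      push_cast
      refine h1.trans ?_
      have h2 : (s i : ℝ) ≤ n := by exact_mod_cast hsn i
      gcongr)
    univ).2
  rw [card_univ, Fintype.card_fin] at h
  refine h.trans ?_
  refine mul_le_mul_of_nonneg_right ?_ (Finset.sum_nonneg fun _ _ => norm_nonneg _)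
  have h1 := geo_bound d
  have h2 : (0 : ℝ) ≤ (n + 1) / 2 ^ w := by positivity
  calc 109 * ((n : ℝ) + 1) / 2 ^ w * ∑ j ∈ range d, (12 : ℝ) ^ j =
        (109 * ∑ j ∈ range d, (12 : ℝ) ^ j) * ((n + 1) / 2 ^ w) := by ring
    _ ≤ 200 ^ d * ((n + 1) / 2 ^ w) := mul_le_mul_of_nonneg_right h1 h2
    _ = (200 : ℝ) ^ d * (n + 1) / 2 ^ w := by ring

/-- T1: the localised sign of a block polynomial. -/
theorem exists_localised {d : ℕ} (L w n : ℕ) (hw : 1 ≤ w) (s : Fin d → ℕ)
    (hs2 : ∀ i, 2 ∣ s i) (hsw : ∀ i, 2 ≤ s i ∧ w ≤ s i) (hsn : ∀ i, s i ≤ n) (hL : n + w + 4 ≤ L)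
    (c : (Fin d → ℤ) → ℂ) :
    ∃ f : (Fin d → ZMod (2 ^ L)) → ℝ,
      (∀ x, |f x| ≤ 12 ^ d) ∧
      (∀ (i : Fin d) (x y : Fin d → ZMod (2 ^ L)), (∀ j, j ≠ i → x j = y j) →
        cell L (s i + w) (x i) = cell L (s i + w) (y i) → f x = f y) ∧
      (∀ (i : Fin d) (x : Fin d → ZMod (2 ^ L)),
        ∑ z ∈ Finset.univ.filter (fun z : ZMod (2 ^ L) => cell L (s i - w) z = cell L (s i - w) (x i)),
          f (Function.update x i z) = 0) ∧
      (∑ x, |(blockPoly c s (gp L x)).re| - (200 : ℝ) ^ d * (n + 1) / 2 ^ w * ∑ x, ‖blockPoly c s (gp L x)‖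
        ≤ (∑ x, blockPoly c s (gp L x) * (f x : ℂ)).re) ∧
      (∀ (t : Fin d → ℕ) (c' : (Fin d → ℤ) → ℂ), (∀ i, 2 ∣ t i) → (∀ i, t i ≤ n) → t ≠ s →
        ‖∑ x, blockPoly c' t (gp L x) * (f x : ℂ)‖
          ≤ (200 : ℝ) ^ d * (n + 1) / 2 ^ w * ∑ x, ‖blockPoly c' t (gp L x)‖) := by
  classical
  set σ : (Fin d → ZMod (2 ^ L)) → ℝ := fun z => if 0 ≤ (blockPoly c s (gp L z)).re then 1 else -1
    with hσdef
  have hσ : ∀ z, |σ z| ≤ 1 := by
    intro z
    simp only [hσdef]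
    split_ifs <;> simp
  have hσ2 : ∀ z, σ z * (blockPoly c s (gp L z)).re = |(blockPoly c s (gp L z)).re| := by
    intro z
    simp only [hσdef]
    split_ifs with h
    · rw [one_mul, abs_of_nonneg h]
    · rw [abs_of_neg (not_le.1 h)]; ring
  refine ⟨loc L w s σ, fun x => loc_abs hL hsn σ hσ x, fun i x y h hc => loc_const hL hsn σ i x y h hc,
    fun i x => loc_zero hL hsn σ i x, ?_, ?_⟩
  · rw [loc_pair c s σ]
    have h1 := loc_estimate hs2 hsw hsn hL c s hs2 hsn
    simp only [if_true, Finset.prod_const_one, one_mul] at h1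
    rw [Complex.re_sum]
    have h2 : ∀ z, |(blockPoly c s (gp L z)).re| -
        ‖HA c (Fintype.piFinset fun j => blk (s j)) (uu L w s) univ z - blockPoly c s (gp L z)‖ ≤
        ((σ z : ℂ) * HA c (Fintype.piFinset fun j => blk (s j)) (uu L w s) univ z).re := by
      intro z
      rw [Complex.re_ofReal_mul, ← hσ2 z]
      set H := HA c (Fintype.piFinset fun j => blk (s j)) (uu L w s) univ z
      set P := blockPoly c s (gp L z)
      have h3 : |(H - P).re| ≤ ‖H - P‖ := Complex.abs_re_le_norm _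
      rw [Complex.sub_re] at h3
      have h4 : |σ z * (H.re - P.re)| ≤ ‖H - P‖ := by
        rw [abs_mul]
        have := mul_le_mul (hσ z) h3 (abs_nonneg _) (by norm_num : (0 : ℝ) ≤ 1)
        linarith
      have h5 := (abs_le.1 h4).1
      have h6 : σ z * (H.re - P.re) = σ z * H.re - σ z * P.re := by ring
      linarith
    have h3 := Finset.sum_le_sum fun z (_ : z ∈ univ) => h2 z
    rw [Finset.sum_sub_distrib] at h3
    linarith
  · intro t c' ht2 htn hne
    rw [loc_pair c' t σ]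
    have h1 := loc_estimate hs2 hsw hsn hL c' t ht2 htn
    obtain ⟨i, hi⟩ := Function.ne_iff.1 hne
    have h2 : (∏ i, (if t i = s i then (1 : ℂ) else 0)) = 0 :=
      Finset.prod_eq_zero (mem_univ i) (if_neg hi)
    simp only [h2, zero_mul, sub_zero] at h1
    refine (norm_sum_le _ _).trans (le_trans ?_ h1)
    refine Finset.sum_le_sum fun z _ => ?_
    rw [norm_mul, Complex.norm_real, Real.norm_eq_abs]
    have := mul_le_mul_of_nonneg_right (hσ z)
      (norm_nonneg (HA c' (Fintype.piFinset fun j => blk (t j)) (uu L w s) univ z))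
    linarith

/-- T2: a block polynomial is almost orthogonal to bounded functions with zero cell averages. -/
theorem pairing_le {d : ℕ} (L l : ℕ) (hl : l ≤ L) (t : Fin d → ℕ) (j : Fin d) (ht : t j + 2 ≤ L)
    (c : (Fin d → ℤ) → ℂ) (B : ℝ) (h : (Fin d → ZMod (2 ^ L)) → ℝ) (hB : ∀ x, |h x| ≤ B)
    (h0 : ∀ x : Fin d → ZMod (2 ^ L),
        ∑ z ∈ Finset.univ.filter (fun z : ZMod (2 ^ L) => cell L l z = cell L l (x j)),
          h (Function.update x j z) = 0) :
    ‖∑ x, blockPoly c t (gp L x) * (h x : ℂ)‖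
      ≤ 100 * 2 ^ (t j) / 2 ^ l * B * ∑ x, ‖blockPoly c t (gp L x)‖ := by
  have hN0 : (0 : ℝ) < 2 ^ L := by positivity
  have hNc : ((2 ^ L : ℕ) : ℂ) ≠ 0 := by exact_mod_cast (by positivity : (2 ^ L : ℕ) ≠ 0)
  have hB0 : 0 ≤ B := (abs_nonneg _).trans (hB (fun _ => 0))
  set m : ℕ := 2 ^ t j with hm
  have hm1 : 1 ≤ m := Nat.one_le_two_pow
  have hmN : 4 * m ≤ 2 ^ L := by
    have h3 : 2 ^ (t j + 2) ≤ 2 ^ L := Nat.pow_le_pow_right (by norm_num) ht
    have h4 : 2 ^ (t j + 2) = 4 * 2 ^ t j := by ring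
    omega
  set v : ZMod (2 ^ L) → ℝ := vp m
  set V : ℝ := ∑ y : ZMod (2 ^ L), |v (y + 1) - v y|
  have hV : V ≤ 63 * m := by
    have h1 := var_vp (N := 2 ^ L) m hm1 (by omega)
    have hpi : Real.pi < 3.15 := Real.pi_lt_d2
    have hm0 : (0 : ℝ) < m := by exact_mod_cast hm1
    nlinarith [mul_lt_mul_of_pos_right hpi hm0]
  have hV0 : 0 ≤ V := Finset.sum_nonneg fun _ _ => abs_nonneg _
  -- reproducing formula
  have hrep : ∀ x : Fin d → ZMod (2 ^ L), ((2 ^ L : ℕ) : ℂ) * blockPoly c t (gp L x) =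
      ∑ y : ZMod (2 ^ L), (v (y - x j) : ℂ) * blockPoly c t (gp L (Function.update x j y)) := by
    intro x
    simp_rw [blockPoly_eq L c t (fun _ _ _ => 0)]
    have h1 := HA_delta c (Fintype.piFinset fun j => blk (t j)) (fun _ _ _ => 0) ∅ j
      (notMem_empty j) v 1 (fun k hk z => by
        have hki : k j ∈ blk (t j) := (Fintype.mem_piFinset.1 hk) j
        obtain ⟨_, h2⟩ := mem_blk hki
        rw [hat_shift v (k j) _ (hat_vp_one (N := 2 ^ L) m hm1 (k j) (by omega) (by omega)) z,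
          one_mul]) x
    rw [h1, one_mul]
  -- pairing
  have hpair : ((2 ^ L : ℕ) : ℂ) * ∑ x, blockPoly c t (gp L x) * (h x : ℂ) =
      ∑ x, blockPoly c t (gp L x) *
        ((∑ y : ZMod (2 ^ L), v (x j - y) * h (Function.update x j y) : ℝ) : ℂ) := by
    rw [Finset.mul_sum]
    have h1 : ∀ x : Fin d → ZMod (2 ^ L), ((2 ^ L : ℕ) : ℂ) * (blockPoly c t (gp L x) * (h x : ℂ)) =
        ∑ y : ZMod (2 ^ L), (v (y - x j) : ℂ) * blockPoly c t (gp L (Function.update x j y)) *
          (h (Function.update (Function.update x j y) j (x j)) : ℂ) := by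
      intro x
      rw [← mul_assoc, hrep x, Finset.sum_mul]
      refine Finset.sum_congr rfl fun y _ => ?_
      rw [Function.update_idem, Function.update_eq_self]
    simp_rw [h1]
    rw [swap_sum j (fun a y x' => (v (y - a) : ℂ) * blockPoly c t (gp L x') *
      (h (Function.update x' j a) : ℂ))]
    refine Finset.sum_congr rfl fun x _ => ?_
    push_cast
    rw [Finset.mul_sum]
    refine Finset.sum_congr rfl fun y _ => ?_
    ring
  -- the bound of the smoothed function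
  have hsm : ∀ x : Fin d → ZMod (2 ^ L),
      |∑ y : ZMod (2 ^ L), v (x j - y) * h (Function.update x j y)| ≤
        B * (2 ^ (L - l) * V) := by
    intro x
    set g : ZMod (2 ^ L) → ℝ := fun y => v (x j - y)
    have hp : (0 : ℝ) < 2 ^ (L - l) := by positivity
    have hav : ∑ y : ZMod (2 ^ L), g y * h (Function.update x j y) =
        ∑ y : ZMod (2 ^ L), ((∑ y' ∈ cs L l y, (g y - g y')) / 2 ^ (L - l)) *
          h (Function.update x j y) := by
      have e1 : ∀ y : ZMod (2 ^ L), (∑ y' ∈ cs L l y, (g y - g y')) / 2 ^ (L - l) =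
          g y - (∑ y' ∈ cs L l y, g y') / 2 ^ (L - l) := by
        intro y
        rw [Finset.sum_sub_distrib, Finset.sum_const, card_cs hl, nsmul_eq_mul]
        push_cast
        field_simp
      simp_rw [e1, sub_mul]
      rw [Finset.sum_sub_distrib]
      have e2 : ∑ y : ZMod (2 ^ L), (∑ y' ∈ cs L l y, g y') / 2 ^ (L - l) *
          h (Function.update x j y) = 0 := by
        simp_rw [div_mul_eq_mul_div]
        rw [← Finset.sum_div]
        have e3 : ∑ y : ZMod (2 ^ L), (∑ y' ∈ cs L l y, g y') * h (Function.update x j y) =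
            ∑ y' : ZMod (2 ^ L), g y' * ∑ y ∈ cs L l y', h (Function.update x j y) := by
          simp_rw [Finset.sum_mul, Finset.mul_sum]
          refine Finset.sum_comm' ?_
          intro y y'
          constructor
          · rintro ⟨_, h1⟩
            exact ⟨mem_cs.2 (mem_cs.1 h1).symm, mem_univ _⟩
          · rintro ⟨h1, _⟩
            exact ⟨mem_univ _, mem_cs.2 (mem_cs.1 h1).symm⟩
        rw [e3]
        have e4 : ∀ y' : ZMod (2 ^ L), ∑ y ∈ cs L l y', h (Function.update x j y) = 0 := by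
          intro y'
          have := h0 (Function.update x j y')
          simp only [Function.update_self, Function.update_idem] at this
          unfold cs
          exact this
        simp [e4]
      rw [e2, sub_zero]
    rw [hav]
    refine (Finset.abs_sum_le_sum_abs _ _).trans ?_
    have h1 : ∀ y : ZMod (2 ^ L), |((∑ y' ∈ cs L l y, (g y - g y')) / 2 ^ (L - l)) *
        h (Function.update x j y)| ≤ (∑ y' ∈ cs L l y, |g y - g y'|) / 2 ^ (L - l) * B := by
      intro y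
      rw [abs_mul, abs_div, abs_of_pos hp]
      refine mul_le_mul ?_ (hB _) (abs_nonneg _) (by positivity)
      gcongr
      exact Finset.abs_sum_le_sum_abs _ _
    refine (Finset.sum_le_sum fun y _ => h1 y).trans ?_
    rw [← Finset.sum_mul, ← Finset.sum_div]
    have h2 := osc_sum hl g
    have h3 : ∑ w : ZMod (2 ^ L), |g (w + 1) - g w| = V := by
      show ∑ w : ZMod (2 ^ L), |v (x j - (w + 1)) - v (x j - w)| =
        ∑ y : ZMod (2 ^ L), |v (y + 1) - v y|
      have e5 : ∀ w : ZMod (2 ^ L), |v (x j - (w + 1)) - v (x j - w)| =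
          (fun u => |v (u + 1) - v u|) (x j - 1 - w) := by
        intro w
        show _ = |v (x j - 1 - w + 1) - v (x j - 1 - w)|
        rw [abs_sub_comm, show x j - 1 - w + 1 = x j - w by ring,
          show x j - 1 - w = x j - (w + 1) by ring]
      simp_rw [e5]
      exact sum_subLeft (fun u => |v (u + 1) - v u|) (x j - 1)
    rw [h3] at h2
    have h4 : (∑ y : ZMod (2 ^ L), ∑ y' ∈ cs L l y, |g y - g y'|) / 2 ^ (L - l) ≤
        2 ^ (L - l) * V := by
      rw [div_le_iff₀ hp]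
      linarith
    calc (∑ y : ZMod (2 ^ L), ∑ y' ∈ cs L l y, |g y - g y'|) / 2 ^ (L - l) * B ≤
          (2 ^ (L - l) * V) * B := mul_le_mul_of_nonneg_right h4 hB0
      _ = B * (2 ^ (L - l) * V) := by ring
  -- conclusion
  have hfin : (2 : ℝ) ^ L * ‖∑ x, blockPoly c t (gp L x) * (h x : ℂ)‖ ≤
      (B * (2 ^ (L - l) * V)) * ∑ x, ‖blockPoly c t (gp L x)‖ := by
    have h1 : (2 : ℝ) ^ L * ‖∑ x, blockPoly c t (gp L x) * (h x : ℂ)‖ =
        ‖((2 ^ L : ℕ) : ℂ) * ∑ x, blockPoly c t (gp L x) * (h x : ℂ)‖ := by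
      rw [norm_mul, Complex.norm_natCast]
      push_cast
      rfl
    rw [h1, hpair, Finset.mul_sum]
    refine (norm_sum_le _ _).trans (Finset.sum_le_sum fun x _ => ?_)
    rw [norm_mul, Complex.norm_real, Real.norm_eq_abs, mul_comm]
    exact mul_le_mul_of_nonneg_right (hsm x) (norm_nonneg _)
  have hS : 0 ≤ ∑ x, ‖blockPoly c t (gp L x)‖ := Finset.sum_nonneg fun _ _ => norm_nonneg _
  have hsplit : (2 : ℝ) ^ L = 2 ^ l * 2 ^ (L - l) := by
    rw [← pow_add, Nat.add_sub_cancel' hl]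
  have hmr : (m : ℝ) = 2 ^ t j := by rw [hm]; push_cast; rfl
  have h5 : B * (2 ^ (L - l) * V) ≤ (2 : ℝ) ^ L * (100 * 2 ^ (t j) / 2 ^ l * B) := by
    have e6 : (2 : ℝ) ^ L * (100 * 2 ^ (t j) / 2 ^ l * B) = B * (2 ^ (L - l) * (100 * 2 ^ (t j))) := by
      rw [hsplit]
      field_simp
    rw [e6]
    refine mul_le_mul_of_nonneg_left (mul_le_mul_of_nonneg_left ?_ (by positivity)) hB0
    rw [← hmr]
    have hm0 : (0 : ℝ) < m := by exact_mod_cast hm1
    linarith
  have h6 := hfin.trans (mul_le_mul_of_nonneg_right h5 hS)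
  rw [mul_assoc] at h6
  exact le_of_mul_le_mul_left h6 hN0

end concrete

end Pool.Agent.MP_a7b2aa_an
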